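import Mathlib

/-!
# Absolute extensors for compact metric pairs (helper64)

`EX Y`, for a subset `Y` of a topological space `Z`: every continuous map into `Y` from a closed
subset `A` of a closed subset `B` of a compact metric space extends to a continuous map of `B`
into `Y`.
-/

set_option autoImplicit false

namespace Pool.KT

open Set Topology Filter

/-- absolute extensor for compact metric pairs -/
def EX {Z : Type*} [TopologicalSpace Z] (Y : Set Z) : Prop :=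
  ∀ (X : Type) [MetricSpace X] [CompactSpace X] (A B : Set X), IsClosed A → IsClosed B → A ⊆ B →
    ∀ f : X → Z, ContinuousOn f A → MapsTo f A Y →
      ∃ g : X → Z, ContinuousOn g B ∧ MapsTo g B Y ∧ EqOn g f A

variable {Z Z' : Type*} [TopologicalSpace Z] [TopologicalSpace Z']

theorem EX.nonempty {Y : Set Z} (h : EX Y) (z : Z) : Y.Nonempty := by
  obtain ⟨g, -, hg, -⟩ := h PUnit ∅ univ isClosed_empty isClosed_univ (empty_subset _)
    (fun _ => z) (continuousOn_empty _) (fun x hx => hx.elim)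
  exact ⟨g PUnit.unit, hg (mem_univ _)⟩

/-- gluing of continuous maps on two closed sets -/
theorem glue_closed {X : Type*} [TopologicalSpace X] {B₁ B₂ : Set X} (h1 : IsClosed B₁)
    (h2 : IsClosed B₂) {g₁ g₂ : X → Z} (c1 : ContinuousOn g₁ B₁) (c2 : ContinuousOn g₂ B₂)
    (h : EqOn g₁ g₂ (B₁ ∩ B₂)) :
    ∃ g : X → Z, ContinuousOn g (B₁ ∪ B₂) ∧ EqOn g g₁ B₁ ∧ EqOn g g₂ B₂ := by
  classical
  refine ⟨fun x => if x ∈ B₁ then g₁ x else g₂ x, ?_, fun x hx => if_pos hx, ?_⟩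
  · have e1 : EqOn (fun x => if x ∈ B₁ then g₁ x else g₂ x) g₁ B₁ := fun x hx => if_pos hx
    have e2 : EqOn (fun x => if x ∈ B₁ then g₁ x else g₂ x) g₂ B₂ := by
      intro x hx
      by_cases hx1 : x ∈ B₁
      · show (if x ∈ B₁ then g₁ x else g₂ x) = g₂ x
        rw [if_pos hx1]; exact h ⟨hx1, hx⟩
      · show (if x ∈ B₁ then g₁ x else g₂ x) = g₂ x
        rw [if_neg hx1]
    exact (c1.congr e1).union_of_isClosed (c2.congr e2) h1 h2
  · intro x hx
    by_cases hx1 : x ∈ B₁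
    · show (if x ∈ B₁ then g₁ x else g₂ x) = g₂ x
      rw [if_pos hx1]; exact h ⟨hx1, hx⟩
    · show (if x ∈ B₁ then g₁ x else g₂ x) = g₂ x
      rw [if_neg hx1]

/-- separation of two closed sets covering `A` -/
theorem exists_split {X : Type*} [MetricSpace X] {A₁ A₂ : Set X} (h1 : IsClosed A₁)
    (h2 : IsClosed A₂) (n1 : A₁.Nonempty) (n2 : A₂.Nonempty) :
    ∃ B₁ B₂ : Set X, IsClosed B₁ ∧ IsClosed B₂ ∧ B₁ ∪ B₂ = univ ∧ B₁ ∩ (A₁ ∪ A₂) = A₁ ∧
      B₂ ∩ (A₁ ∪ A₂) = A₂ := by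
  have z1 : ∀ x, Metric.infDist x A₁ = 0 → x ∈ A₁ := fun x hx =>
    (h1.mem_iff_infDist_zero n1).2 hx
  have z2 : ∀ x, Metric.infDist x A₂ = 0 → x ∈ A₂ := fun x hx =>
    (h2.mem_iff_infDist_zero n2).2 hx
  have y1 : ∀ x ∈ A₁, Metric.infDist x A₁ = 0 := fun x hx => Metric.infDist_zero_of_mem hx
  have y2 : ∀ x ∈ A₂, Metric.infDist x A₂ = 0 := fun x hx => Metric.infDist_zero_of_mem hx
  refine ⟨{x | Metric.infDist x A₁ ≤ Metric.infDist x A₂},
    {x | Metric.infDist x A₂ ≤ Metric.infDist x A₁},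
    isClosed_le (Metric.continuous_infDist_pt _) (Metric.continuous_infDist_pt _),
    isClosed_le (Metric.continuous_infDist_pt _) (Metric.continuous_infDist_pt _), ?_, ?_, ?_⟩
  · ext x
    simp only [mem_union, mem_ofPred_eq, mem_univ, iff_true]
    exact le_total _ _
  · ext x
    constructor
    · rintro ⟨hx, hx1 | hx2⟩
      · exact hx1
      · refine z1 x (le_antisymm ?_ Metric.infDist_nonneg)
        have hx' : Metric.infDist x A₁ ≤ Metric.infDist x A₂ := hx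
        rw [y2 x hx2] at hx'
        exact hx'
    · intro hx
      refine ⟨?_, Or.inl hx⟩
      show Metric.infDist x A₁ ≤ Metric.infDist x A₂
      rw [y1 x hx]
      exact Metric.infDist_nonneg
  · ext x
    constructor
    · rintro ⟨hx, hx1 | hx2⟩
      · refine z2 x (le_antisymm ?_ Metric.infDist_nonneg)
        have hx' : Metric.infDist x A₂ ≤ Metric.infDist x A₁ := hx
        rw [y1 x hx1] at hx'
        exact hx'
      · exact hx2
    · intro hx
      refine ⟨?_, Or.inr hx⟩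
      show Metric.infDist x A₂ ≤ Metric.infDist x A₁
      rw [y2 x hx]
      exact Metric.infDist_nonneg

/-- the core of the union theorem: `f` maps the closed sets `A₁`, `A₂` into `U`, `V`, and
`A₁ ∩ A₂` into `W ⊆ U ∩ V` -/
theorem EX.union_aux {U V W : Set Z} (hU : EX U) (hV : EX V) (hW : EX W) (hWU : W ⊆ U)
    (hWV : W ⊆ V) (X : Type) [MetricSpace X] [CompactSpace X] (A₁ A₂ B : Set X)
    (h1 : IsClosed A₁) (h2 : IsClosed A₂) (hB : IsClosed B) (hAB : A₁ ∪ A₂ ⊆ B) (f : X → Z)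
    (hf : ContinuousOn f (A₁ ∪ A₂)) (m1 : MapsTo f A₁ U) (m2 : MapsTo f A₂ V)
    (m3 : MapsTo f (A₁ ∩ A₂) W) :
    ∃ g : X → Z, ContinuousOn g B ∧ MapsTo g B (U ∪ V) ∧ EqOn g f (A₁ ∪ A₂) := by
  rcases A₁.eq_empty_or_nonempty with e1 | n1
  · subst e1
    obtain ⟨g, c, m, e⟩ := hV X (∅ ∪ A₂) B (isClosed_empty.union h2) hB hAB f hf
      (fun x hx => m2 (by simpa using hx))
    exact ⟨g, c, fun x hx => Or.inr (m hx), e⟩
  rcases A₂.eq_empty_or_nonempty with e2 | n2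
  · subst e2
    obtain ⟨g, c, m, e⟩ := hU X (A₁ ∪ ∅) B (h1.union isClosed_empty) hB hAB f hf
      (fun x hx => m1 (by simpa using hx))
    exact ⟨g, c, fun x hx => Or.inl (m hx), e⟩
  obtain ⟨B₁, B₂, c1, c2, huniv, i1, i2⟩ := exists_split h1 h2 n1 n2
  have hA1B : A₁ ⊆ B := fun x hx => hAB (Or.inl hx)
  have hA2B : A₂ ⊆ B := fun x hx => hAB (Or.inr hx)
  have hA1 : A₁ ⊆ B₁ := by rw [← i1]; exact inter_subset_left
  have hA2 : A₂ ⊆ B₂ := by rw [← i2]; exact inter_subset_left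
  have j1 : ∀ x ∈ A₁, x ∈ B₂ → x ∈ A₂ := fun x hx hx2 => by
    rw [← i2]; exact ⟨hx2, Or.inl hx⟩
  have j2 : ∀ x ∈ A₂, x ∈ B₁ → x ∈ A₁ := fun x hx hx1 => by
    rw [← i1]; exact ⟨hx1, Or.inr hx⟩
  -- the middle part
  obtain ⟨g0, d0, k0, e0⟩ := hW X (A₁ ∩ A₂) (B₁ ∩ B₂ ∩ B) (h1.inter h2) ((c1.inter c2).inter hB)
    (fun x hx => ⟨⟨hA1 hx.1, hA2 hx.2⟩, hA1B hx.1⟩) f (hf.mono (fun x hx => Or.inl hx.1)) m3
  -- first half
  obtain ⟨f1, u1, v1, w1⟩ := glue_closed h1 ((c1.inter c2).inter hB)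
    (hf.mono (fun x hx => Or.inl hx)) d0
    (fun x hx => (e0 ⟨hx.1, j1 x hx.1 hx.2.1.2⟩).symm)
  obtain ⟨g1, d1, k1, e1⟩ := hU X (A₁ ∪ (B₁ ∩ B₂ ∩ B)) (B₁ ∩ B)
    (h1.union ((c1.inter c2).inter hB)) (c1.inter hB)
    (union_subset (fun x hx => ⟨hA1 hx, hA1B hx⟩) (fun x hx => ⟨hx.1.1, hx.2⟩)) f1 u1
    (by
      rintro x (hx | hx)
      · rw [v1 hx]; exact m1 hx
      · rw [w1 hx]; exact hWU (k0 hx))
  -- second half
  obtain ⟨f2, u2, v2, w2⟩ := glue_closed h2 ((c1.inter c2).inter hB)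
    (hf.mono (fun x hx => Or.inr hx)) d0
    (fun x hx => (e0 ⟨j2 x hx.1 hx.2.1.1, hx.1⟩).symm)
  obtain ⟨g2, d2, k2, e2⟩ := hV X (A₂ ∪ (B₁ ∩ B₂ ∩ B)) (B₂ ∩ B)
    (h2.union ((c1.inter c2).inter hB)) (c2.inter hB)
    (union_subset (fun x hx => ⟨hA2 hx, hA2B hx⟩) (fun x hx => ⟨hx.1.2, hx.2⟩)) f2 u2
    (by
      rintro x (hx | hx)
      · rw [v2 hx]; exact m2 hx
      · rw [w2 hx]; exact hWV (k0 hx))
  obtain ⟨g, d, r1, r2⟩ := glue_closed (c1.inter hB) (c2.inter hB) d1 d2 (by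
    intro x hx
    have hx' : x ∈ B₁ ∩ B₂ ∩ B := ⟨⟨hx.1.1, hx.2.1⟩, hx.1.2⟩
    rw [e1 (Or.inr hx'), e2 (Or.inr hx'), w1 hx', w2 hx'])
  have hcov : B₁ ∩ B ∪ B₂ ∩ B = B := by
    rw [← union_inter_distrib_right, huniv, univ_inter]
  rw [hcov] at d
  refine ⟨g, d, ?_, ?_⟩
  · intro x hx
    rw [← hcov] at hx
    rcases hx with hx | hx
    · left; rw [r1 hx]; exact k1 hx
    · right; rw [r2 hx]; exact k2 hx
  · rintro x (hx | hx)
    · rw [r1 ⟨hA1 hx, hA1B hx⟩, e1 (Or.inl hx), v1 hx]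
    · rw [r2 ⟨hA2 hx, hA2B hx⟩, e2 (Or.inl hx), v2 hx]

/-- union of two relatively closed sets -/
theorem EX.union_relClosed {U V : Set Z} (hU : EX U) (hV : EX V) (hI : EX (U ∩ V))
    {F G : Set Z} (hF : IsClosed F) (hG : IsClosed G) (hFU : F ∩ (U ∪ V) = U)
    (hGV : G ∩ (U ∪ V) = V) : EX (U ∪ V) := by
  intro X _ _ A B hA hB hAB f hf hm
  have hAe : A = (A ∩ f ⁻¹' F) ∪ (A ∩ f ⁻¹' G) := by
    ext x
    constructor
    · intro hx
      rcases hm hx with h | h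
      · left; exact ⟨hx, by rw [← hFU] at h; exact h.1⟩
      · right; exact ⟨hx, by rw [← hGV] at h; exact h.1⟩
    · rintro (h | h) <;> exact h.1
  have q1 : ∀ x ∈ A ∩ f ⁻¹' F, f x ∈ U := fun x hx => by
    rw [← hFU]; exact ⟨hx.2, hm hx.1⟩
  have q2 : ∀ x ∈ A ∩ f ⁻¹' G, f x ∈ V := fun x hx => by
    rw [← hGV]; exact ⟨hx.2, hm hx.1⟩
  obtain ⟨g, c, m, e⟩ := EX.union_aux hU hV hI inter_subset_left inter_subset_right X
    (A ∩ f ⁻¹' F) (A ∩ f ⁻¹' G) B (hf.preimage_isClosed_of_isClosed hA hF)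
    (hf.preimage_isClosed_of_isClosed hA hG) hB (by rw [← hAe]; exact hAB) f
    (by rw [← hAe]; exact hf) q1 q2 (fun x hx => ⟨q1 x hx.1, q2 x hx.2⟩)
  exact ⟨g, c, m, by rw [hAe]; exact e⟩

/-- union of two closed sets -/
theorem EX.union_closed {U V : Set Z} (hU : EX U) (hV : EX V) (hI : EX (U ∩ V))
    (cU : IsClosed U) (cV : IsClosed V) : EX (U ∪ V) :=
  hU.union_relClosed hV hI cU cV (inter_eq_left.2 subset_union_left)
    (inter_eq_left.2 subset_union_right)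

/-- union of two open sets -/
theorem EX.union_open {U V : Set Z} (hU : EX U) (hV : EX V) (hI : EX (U ∩ V))
    (oU : IsOpen U) (oV : IsOpen V) : EX (U ∪ V) := by
  intro X _ _ A B hA hB hAB f hf hm
  -- points which are mapped outside of `V`, `U`
  have k1 : IsClosed (A ∩ f ⁻¹' Vᶜ) := hf.preimage_isClosed_of_isClosed hA oV.isClosed_compl
  have k2 : IsClosed (A ∩ f ⁻¹' Uᶜ) := hf.preimage_isClosed_of_isClosed hA oU.isClosed_compl
  rcases (A ∩ f ⁻¹' Vᶜ).eq_empty_or_nonempty with e1 | n1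
  · obtain ⟨g, c, m, e⟩ := hV X A B hA hB hAB f hf (fun x hx => by
      by_contra h
      have : x ∈ A ∩ f ⁻¹' Vᶜ := ⟨hx, h⟩
      rw [e1] at this
      exact this)
    exact ⟨g, c, fun x hx => Or.inr (m hx), e⟩
  rcases (A ∩ f ⁻¹' Uᶜ).eq_empty_or_nonempty with e2 | n2
  · obtain ⟨g, c, m, e⟩ := hU X A B hA hB hAB f hf (fun x hx => by
      by_contra h
      have : x ∈ A ∩ f ⁻¹' Uᶜ := ⟨hx, h⟩
      rw [e2] at this
      exact this)
    exact ⟨g, c, fun x hx => Or.inl (m hx), e⟩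
  obtain ⟨B₁, B₂, c1, c2, huniv, i1, i2⟩ := exists_split k1 k2 n1 n2
  have q1 : ∀ x ∈ A ∩ B₁, f x ∈ U := by
    rintro x ⟨hx, hx1⟩
    by_contra h
    have h3 : x ∈ A ∩ f ⁻¹' Vᶜ := by
      rw [← i1]; exact ⟨hx1, Or.inr ⟨hx, h⟩⟩
    rcases hm hx with h4 | h4
    · exact h h4
    · exact h3.2 h4
  have q2 : ∀ x ∈ A ∩ B₂, f x ∈ V := by
    rintro x ⟨hx, hx1⟩
    by_contra h
    have h3 : x ∈ A ∩ f ⁻¹' Uᶜ := by
      rw [← i2]; exact ⟨hx1, Or.inl ⟨hx, h⟩⟩
    rcases hm hx with h4 | h4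
    · exact h3.2 h4
    · exact h h4
  have hAe : A = (A ∩ B₁) ∪ (A ∩ B₂) := by
    rw [← inter_union_distrib_left, huniv, inter_univ]
  obtain ⟨g, c, m, e⟩ := EX.union_aux hU hV hI inter_subset_left inter_subset_right X
    (A ∩ B₁) (A ∩ B₂) B (hA.inter c1) (hA.inter c2) hB (by rw [← hAe]; exact hAB) f
    (by rw [← hAe]; exact hf) q1 q2 (fun x hx => ⟨q1 x hx.1, q2 x hx.2⟩)
  exact ⟨g, c, m, by rw [hAe]; exact e⟩

/-- retracts and homeomorphic images -/
theorem EX.of_retract {Y : Set Z} (hY : EX Y) {Y' : Set Z'} (i : Z' → Z) (r : Z → Z')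
    (hi : ContinuousOn i Y') (mi : MapsTo i Y' Y) (hr : ContinuousOn r Y) (mr : MapsTo r Y Y')
    (hri : ∀ y ∈ Y', r (i y) = y) : EX Y' := by
  intro X _ _ A B hA hB hAB f hf hm
  obtain ⟨g, c, m, e⟩ := hY X A B hA hB hAB (i ∘ f) (hi.comp hf hm) (mi.comp hm)
  refine ⟨r ∘ g, hr.comp c m, mr.comp m, fun x hx => ?_⟩
  show r (g x) = f x
  rw [e hx]
  exact hri _ (hm hx)

/-- image under a map which is injective on `Y` with an inverse continuous on the image -/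
theorem EX.image_homeomorph {Y : Set Z} (hY : EX Y) (e : Z ≃ₜ Z') : EX (e '' Y) :=
  hY.of_retract e.symm e e.symm.continuous.continuousOn
    (by rintro _ ⟨y, hy, rfl⟩; rw [e.symm_apply_apply]; exact hy) e.continuous.continuousOn
    (mapsTo_image _ _) (fun y _ => e.apply_symm_apply y)

/-- products -/
theorem EX.prod {Y : Set Z} {Y' : Set Z'} (hY : EX Y) (hY' : EX Y') : EX (Y ×ˢ Y') := by
  intro X _ _ A B hA hB hAB f hf hm
  obtain ⟨g, c, m, e⟩ := hY X A B hA hB hAB (fun x => (f x).1)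
    (continuous_fst.comp_continuousOn hf) (fun x hx => (hm hx).1)
  obtain ⟨g', c', m', e'⟩ := hY' X A B hA hB hAB (fun x => (f x).2)
    (continuous_snd.comp_continuousOn hf) (fun x hx => (hm hx).2)
  exact ⟨fun x => (g x, g' x), c.prodMk c', fun x hx => ⟨m hx, m' hx⟩,
    fun x hx => Prod.ext (e hx) (e' hx)⟩

/-- a finite union of closed sets all of whose intersections are absolute extensors -/
theorem EX.biUnion_inter {ι : Type*} (F : ι → Set Z) (hF : ∀ i, IsClosed (F i)) (s : Finset ι) :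
    ∀ C : Set Z, IsClosed C → s.Nonempty →
    (∀ t : Finset ι, t ⊆ s → t.Nonempty → EX (C ∩ ⋂ i ∈ t, F i)) → EX (C ∩ ⋃ i ∈ s, F i) := by
  classical
  induction s using Finset.induction_on with
  | empty => intro C hC h; exact absurd h Finset.not_nonempty_empty
  | insert a s ha ih =>
    intro C hC _ h
    have hone : EX (C ∩ F a) := by
      have := h {a} (by simp) (Finset.singleton_nonempty a)
      simpa using this
    rcases s.eq_empty_or_nonempty with e | hs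
    · subst e
      simpa using hone
    have h1 : EX (C ∩ ⋃ i ∈ s, F i) := ih C hC hs
      (fun t ht htn => h t (ht.trans (Finset.subset_insert _ _)) htn)
    have h2 : EX (C ∩ F a ∩ ⋃ i ∈ s, F i) := by
      refine ih (C ∩ F a) (hC.inter (hF a)) hs (fun t ht htn => ?_)
      have := h (insert a t) (Finset.insert_subset_insert _ ht) (Finset.insert_nonempty _ _)
      rw [Finset.set_biInter_insert, ← inter_assoc] at this
      exact this
    have e1 : C ∩ ⋃ i ∈ insert a s, F i = (C ∩ F a) ∪ (C ∩ ⋃ i ∈ s, F i) := by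
      rw [Finset.set_biUnion_insert, inter_union_distrib_left]
    have hcl : IsClosed (⋃ i ∈ s, F i) := s.finite_toSet.isClosed_biUnion (fun i _ => hF i)
    rw [e1]
    refine hone.union_closed h1 ?_ (hC.inter (hF a)) (hC.inter hcl)
    have e2 : C ∩ F a ∩ (C ∩ ⋃ i ∈ s, F i) = C ∩ F a ∩ ⋃ i ∈ s, F i := by
      ext x
      simp only [mem_inter_iff]
      tauto
    rw [e2]
    exact h2

/-- galleries: pieces added one by one -/
theorem EX.gallery (P : ℕ → Set Z) (cl : ∀ k, IsClosed (P k)) (h : ∀ k, EX (P k))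
    (hI : ∀ k, EX (P (k + 1) ∩ ⋃ j ∈ Finset.range (k + 1), P j)) :
    ∀ k, EX (⋃ j ∈ Finset.range (k + 1), P j) := by
  intro k
  induction k with
  | zero => simpa using h 0
  | succ k ih =>
    have hcl : IsClosed (⋃ j ∈ Finset.range (k + 1), P j) :=
      (Finset.range (k + 1)).finite_toSet.isClosed_biUnion (fun i _ => cl i)
    rw [Finset.range_add_one (n := k + 1), Finset.set_biUnion_insert]
    exact (h (k + 1)).union_closed ih (hI k) (cl (k + 1)) hcl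

end Pool.KT
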