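import Pool.Agent.Work.MP_70ab54_gt.AE

/-!
# Absolute extensors: base case and consequences (helper64)
-/

set_option autoImplicit false

namespace Pool.KT

open Set Topology Filter unitInterval
open scoped Topology.Homotopy

/-- absolute neighbourhood extensor for compact metric pairs -/
def ANE {Z : Type*} [TopologicalSpace Z] (Y : Set Z) : Prop :=
  ∀ (X : Type) [MetricSpace X] [CompactSpace X] (A : Set X), IsClosed A →
    ∀ f : X → Z, ContinuousOn f A → MapsTo f A Y →
      ∃ (O : Set X) (g : X → Z), IsOpen O ∧ A ⊆ O ∧ ContinuousOn g O ∧ MapsTo g O Y ∧ EqOn g f A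

variable {Z Z' : Type*} [TopologicalSpace Z] [TopologicalSpace Z']

/-- relatively open subsets of closed retracts of `ℝ^n` -/
theorem ANE.of_retr {E : Type} [TopologicalSpace E] [TietzeExtension.{0, 0} E] {C W : Set E}
    (r : E → E) (hr : Continuous r) (hrC : ∀ x, r x ∈ C) (hrid : ∀ x ∈ C, r x = x)
    (hW : IsOpen W) : ANE (C ∩ W) := by
  intro X _ _ A hA f hf hm
  obtain ⟨F, hF⟩ := ContinuousMap.exists_restrict_eq hA
    (⟨A.domRestrict f, hf.domRestrict⟩ : C(A, E))
  have hFa : ∀ x ∈ A, F x = f x := by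
    intro x hx
    have := congrArg (fun h : C(A, E) => h ⟨x, hx⟩) hF
    exact this
  have c : Continuous (fun x => r (F x)) := hr.comp F.continuous
  refine ⟨(fun x => r (F x)) ⁻¹' W, fun x => r (F x), hW.preimage c, ?_, c.continuousOn, ?_, ?_⟩
  · intro x hx
    show r (F x) ∈ W
    rw [hFa x hx, hrid _ (hm hx).1]
    exact (hm hx).2
  · intro x hx
    exact ⟨hrC _, hx⟩
  · intro x hx
    show r (F x) = f x
    rw [hFa x hx, hrid _ (hm hx).1]

/-- open subsets of `ℝ^n` -/
theorem ANE.of_isOpen {E : Type} [TopologicalSpace E] [TietzeExtension.{0, 0} E] {W : Set E}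
    (hW : IsOpen W) : ANE W := by
  have := ANE.of_retr (C := univ) (W := W) (id : E → E) continuous_id (fun x => mem_univ _)
    (fun x _ => rfl) hW
  rwa [univ_inter] at this

/-- relatively open subsets -/
theorem ANE.inter_open {Y W : Set Z} (h : ANE Y) (hW : IsOpen W) : ANE (Y ∩ W) := by
  intro X _ _ A hA f hf hm
  obtain ⟨O, g, hO, hAO, hg, mg, eg⟩ := h X A hA f hf (fun x hx => (hm hx).1)
  refine ⟨O ∩ g ⁻¹' W, g, hg.isOpen_inter_preimage hO hW, ?_, hg.mono inter_subset_left, ?_, eg⟩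
  · intro x hx
    refine ⟨hAO hx, ?_⟩
    show g x ∈ W
    rw [eg hx]
    exact (hm hx).2
  · intro x hx
    exact ⟨mg hx.1, hx.2⟩

/-- a contractible neighbourhood extensor is an absolute extensor -/
theorem ANE.ex {Y : Set Z} (h : ANE Y) {p : Z} (hp : p ∈ Y) (H : Z × ℝ → Z)
    (Hc : ContinuousOn H (Y ×ˢ Icc (0 : ℝ) 1)) (Hm : ∀ y ∈ Y, ∀ t ∈ Icc (0 : ℝ) 1, H (y, t) ∈ Y)
    (H0 : ∀ y ∈ Y, H (y, 0) = p) (H1 : ∀ y ∈ Y, H (y, 1) = y) : EX Y := by
  intro X _ _ A B hA hB hAB f hf hm
  obtain ⟨O, F, hO, hAO, cF, mF, eF⟩ := h X A hA f hf hm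
  obtain ⟨O', hO', hAO', hcl⟩ := normal_exists_closure_subset hA hO hAO
  obtain ⟨u, u0, u1, u2⟩ := exists_continuous_zero_one_of_isClosed (s := O'ᶜ) (t := A)
    hO'.isClosed_compl hA (by
      rw [disjoint_left]
      intro x hx hxA
      exact hx (hAO' hxA))
  have c1 : ContinuousOn (fun x => H (F x, u x)) (closure O') := by
    refine Hc.comp ((cF.mono hcl).prodMk u.continuous.continuousOn) ?_
    intro x hx
    exact ⟨mF (hcl hx), u2 x⟩
  obtain ⟨g, cg, g1, g2⟩ := glue_closed isClosed_closure hO'.isClosed_compl c1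
    (continuousOn_const (c := p)) (by
      rintro x ⟨hx1, hx2⟩
      show H (F x, u x) = p
      have : u x = 0 := u0 hx2
      rw [this]
      exact H0 _ (mF (hcl hx1)))
  have huniv : closure O' ∪ O'ᶜ = univ := by
    refine eq_univ_of_forall fun x => ?_
    by_cases hx : x ∈ O'
    · exact Or.inl (subset_closure hx)
    · exact Or.inr hx
  rw [huniv] at cg
  refine ⟨g, cg.mono (subset_univ _), ?_, ?_⟩
  · intro x _
    by_cases hx : x ∈ closure O'
    · rw [g1 hx]
      exact Hm _ (mF (hcl hx)) _ (u2 x)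
    · rw [g2 (fun h => hx (subset_closure h))]
      exact hp
  · intro x hx
    rw [g1 (subset_closure (hAO' hx))]
    show H (F x, u x) = f x
    have : u x = 1 := u1 hx
    rw [this, eF hx]
    exact H1 _ (hm hx)

/-- star shaped sets -/
theorem ANE.ex_of_starConvex {E : Type*} [AddCommGroup E] [Module ℝ E] [TopologicalSpace E]
    [IsTopologicalAddGroup E] [ContinuousSMul ℝ E] {Y : Set E} (h : ANE Y) {p : E} (hp : p ∈ Y)
    (hs : StarConvex ℝ p Y) : EX Y := by
  refine h.ex hp (fun q => (1 - q.2) • p + q.2 • q.1) ?_ ?_ ?_ ?_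
  · exact (((continuous_const.sub continuous_snd).smul continuous_const).add
      (continuous_snd.smul continuous_fst)).continuousOn
  · intro y hy t ht
    exact hs hy (by linarith [ht.2]) ht.1 (by ring)
  · intro y _
    show (1 - (0 : ℝ)) • p + (0 : ℝ) • y = p
    rw [sub_zero, one_smul, zero_smul, add_zero]
  · intro y _
    show (1 - (1 : ℝ)) • p + (1 : ℝ) • y = y
    rw [sub_self, one_smul, zero_smul, zero_add]

/-- closed retract `C` of `ℝ^n` intersected with an open set, star shaped -/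
theorem EX.of_retr_starConvex {E : Type} [AddCommGroup E] [Module ℝ E] [TopologicalSpace E]
    [IsTopologicalAddGroup E] [ContinuousSMul ℝ E] [TietzeExtension.{0, 0} E] {C W : Set E}
    (r : E → E) (hr : Continuous r) (hrC : ∀ x, r x ∈ C) (hrid : ∀ x ∈ C, r x = x)
    (hW : IsOpen W) {p : E} (hp : p ∈ C ∩ W) (hs : StarConvex ℝ p (C ∩ W)) : EX (C ∩ W) :=
  (ANE.of_retr r hr hrC hrid hW).ex_of_starConvex hp hs

/-- convex closed retracts -/
theorem EX.of_retr_convex {E : Type} [AddCommGroup E] [Module ℝ E] [TopologicalSpace E]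
    [IsTopologicalAddGroup E] [ContinuousSMul ℝ E] [TietzeExtension.{0, 0} E] {C : Set E}
    (r : E → E) (hr : Continuous r) (hrC : ∀ x, r x ∈ C) (hrid : ∀ x ∈ C, r x = x) : EX C := by
  intro X _ _ A B hA hB hAB f hf hm
  obtain ⟨F, hF⟩ := ContinuousMap.exists_restrict_eq hA
    (⟨A.domRestrict f, hf.domRestrict⟩ : C(A, E))
  have hFa : ∀ x ∈ A, F x = f x := by
    intro x hx
    have := congrArg (fun h : C(A, E) => h ⟨x, hx⟩) hF
    exact this
  refine ⟨fun x => r (F x), (hr.comp F.continuous).continuousOn, fun x _ => hrC _, ?_⟩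
  intro x hx
  show r (F x) = f x
  rw [hFa x hx, hrid _ (hm hx)]

/-! ## Consequences of `EX` -/

/-- homotopies relative to a closed set -/
theorem EX.homotopy {Y : Set Z} (hY : EX Y) {X : Type} [MetricSpace X] [CompactSpace X]
    {S : Set X} (hS : IsClosed S) (f g : C(X, Z)) (mf : ∀ x, f x ∈ Y) (mg : ∀ x, g x ∈ Y)
    (hfg : ∀ x ∈ S, f x = g x) :
    ∃ H : C(I × X, Z), (∀ x, H (0, x) = f x) ∧ (∀ x, H (1, x) = g x) ∧
      (∀ t, ∀ x ∈ S, H (t, x) = f x) ∧ ∀ q, H q ∈ Y := by
  have k0 : IsClosed ({0} ×ˢ univ ∪ univ ×ˢ S : Set (I × X)) :=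
    (isClosed_singleton.prod isClosed_univ).union (isClosed_univ.prod hS)
  have k1 : IsClosed ({1} ×ˢ univ : Set (I × X)) := isClosed_singleton.prod isClosed_univ
  obtain ⟨h, ch, h1, h2⟩ := glue_closed (g₁ := fun q : I × X => f q.2)
    (g₂ := fun q : I × X => g q.2) k0 k1
    (f.continuous.comp continuous_snd).continuousOn
    (g.continuous.comp continuous_snd).continuousOn (by
      rintro ⟨t, x⟩ ⟨hx, hx1⟩
      show f x = g x
      have ht : t = 1 := hx1.1
      rcases hx with hx | hx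
      · have ht0 : t = 0 := hx.1
        rw [ht] at ht0
        exact absurd ht0 one_ne_zero
      · exact hfg x hx.2)
  obtain ⟨H, cH, mH, eH⟩ := hY (I × X) _ univ (k0.union k1) isClosed_univ (subset_univ _) h ch (by
    rintro q (hq | hq)
    · rw [h1 hq]; exact mf _
    · rw [h2 hq]; exact mg _)
  refine ⟨⟨H, continuousOn_univ.1 cH⟩, ?_, ?_, ?_, fun q => mH (mem_univ _)⟩
  · intro x
    have hq : ((0 : I), x) ∈ ({0} ×ˢ univ ∪ univ ×ˢ S : Set (I × X)) := Or.inl ⟨rfl, mem_univ _⟩
    show H (0, x) = f x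
    rw [eH (Or.inl hq), h1 hq]
  · intro x
    have hq : ((1 : I), x) ∈ ({1} ×ˢ univ : Set (I × X)) := ⟨rfl, mem_univ _⟩
    show H (1, x) = g x
    rw [eH (Or.inr hq), h2 hq]
  · intro t x hx
    have hq : (t, x) ∈ ({0} ×ˢ univ ∪ univ ×ˢ S : Set (I × X)) := Or.inr ⟨mem_univ _, hx⟩
    show H (t, x) = f x
    rw [eH (Or.inl hq), h1 hq]

/-- absolute extensors are path connected -/
theorem EX.joinedIn {Y : Set Z} (hY : EX Y) {x y : Z} (hx : x ∈ Y) (hy : y ∈ Y) :
    JoinedIn Y x y := by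
  obtain ⟨H, H0, H1, -, Hm⟩ := hY.homotopy (X := Unit) (S := ∅) isClosed_empty
    (ContinuousMap.const _ x) (ContinuousMap.const _ y) (fun _ => hx) (fun _ => hy)
    (fun _ h => h.elim)
  refine ⟨⟨⟨fun t => H (t, ()), by fun_prop⟩, H0 (), H1 ()⟩, fun t => Hm _⟩

theorem EX.isPathConnected {Y : Set Z} (hY : EX Y) (z : Z) : IsPathConnected Y := by
  obtain ⟨x, hx⟩ := hY.nonempty z
  exact ⟨x, hx, fun y hy => hY.joinedIn hx hy⟩

/-! ## Exhaustions -/

/-- every compact subset lies in an absolute extensor -/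
def CEX (Z : Type*) [TopologicalSpace Z] : Prop :=
  ∀ K : Set Z, IsCompact K → ∃ Y : Set Z, K ⊆ Y ∧ EX Y

theorem EX.cex (h : EX (univ : Set Z)) : CEX Z := fun _ _ => ⟨univ, subset_univ _, h⟩

/-- increasing unions -/
theorem CEX.of_mono (U : ℕ → Set Z) (hmono : Monotone U) (hU : ∀ n, EX (U n))
    (hnhds : ∀ z, ∃ n, U n ∈ 𝓝 z) : CEX Z := by
  intro K hK
  obtain ⟨n, hn⟩ : ∃ n, K ⊆ interior (U n) := by
    have := hK.elim_directed_cover (fun n => interior (U n)) (fun n => isOpen_interior)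
      (fun z _ => by
        obtain ⟨n, hn⟩ := hnhds z
        exact mem_iUnion.2 ⟨n, mem_interior_iff_mem_nhds.2 hn⟩)
      (Monotone.directed_le (fun m n hmn => interior_mono (hmono hmn)))
    exact this
  exact ⟨U n, hn.trans interior_subset, hU n⟩

/-- directed unions -/
theorem CEX.of_directed {ι : Type*} [Nonempty ι] (U : ι → Set Z) (hdir : Directed (· ⊆ ·) U)
    (hU : ∀ n, EX (U n)) (hnhds : ∀ z, ∃ n, U n ∈ 𝓝 z) : CEX Z := by
  intro K hK
  have hdir' : Directed (· ⊆ ·) (fun n => interior (U n)) := by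
    intro a b
    obtain ⟨c, h1, h2⟩ := hdir a b
    exact ⟨c, interior_mono h1, interior_mono h2⟩
  obtain ⟨n, hn⟩ : ∃ n, K ⊆ interior (U n) := by
    have := hK.elim_directed_cover (fun n => interior (U n)) (fun n => isOpen_interior)
      (fun z _ => by
        obtain ⟨n, hn⟩ := hnhds z
        exact mem_iUnion.2 ⟨n, mem_interior_iff_mem_nhds.2 hn⟩) hdir'
    exact this
  exact ⟨U n, hn.trans interior_subset, hU n⟩

/-- invariance under homeomorphisms -/
theorem CEX.homeomorph (h : CEX Z) (e : Z ≃ₜ Z') : CEX Z' := by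
  intro K hK
  obtain ⟨Y, hKY, hY⟩ := h (e.symm '' K) (hK.image e.symm.continuous)
  refine ⟨e '' Y, ?_, hY.image_homeomorph e⟩
  intro x hx
  exact ⟨e.symm x, hKY ⟨x, hx, rfl⟩, e.apply_symm_apply x⟩

/-- extension property of `CEX` spaces for compact metric pairs -/
theorem CEX.extend (h : CEX Z) {X : Type} [MetricSpace X] [CompactSpace X] {A : Set X}
    (hA : IsClosed A) (f : X → Z) (hf : ContinuousOn f A) :
    ∃ g : C(X, Z), EqOn g f A := by
  obtain ⟨Y, hKY, hY⟩ := h (f '' A) (hA.isCompact.image_of_continuousOn hf)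
  obtain ⟨g, cg, -, eg⟩ := hY X A univ hA isClosed_univ (subset_univ _) f hf
    (fun x hx => hKY ⟨x, hx, rfl⟩)
  exact ⟨⟨g, continuousOn_univ.1 cg⟩, eg⟩

/-- homotopies relative to a closed set -/
theorem CEX.homotopy (h : CEX Z) {X : Type} [MetricSpace X] [CompactSpace X]
    {S : Set X} (hS : IsClosed S) (f g : C(X, Z)) (hfg : ∀ x ∈ S, f x = g x) :
    f.HomotopicRel g S := by
  obtain ⟨Y, hKY, hY⟩ := h (range f ∪ range g)
    ((isCompact_range f.continuous).union (isCompact_range g.continuous))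
  obtain ⟨H, H0, H1, H2, -⟩ := hY.homotopy hS f g (fun x => hKY (Or.inl ⟨x, rfl⟩))
    (fun x => hKY (Or.inr ⟨x, rfl⟩)) hfg
  exact ⟨⟨⟨H, H0, H1⟩, fun t x hx => H2 t x hx⟩⟩

theorem CEX.nonempty (h : CEX Z) [Nonempty Z] : PathConnectedSpace Z := by
  refine ⟨inferInstance, fun x y => ?_⟩
  obtain ⟨Y, hKY, hY⟩ := h {x, y} (Set.toFinite _).isCompact
  exact (hY.joinedIn (hKY (by simp)) (hKY (by simp))).joined

theorem CEX.pathConnectedSpace (h : CEX Z) [Nonempty Z] : PathConnectedSpace Z := h.nonempty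

theorem CEX.simplyConnectedSpace (h : CEX Z) [Nonempty Z] : SimplyConnectedSpace Z := by
  rw [simply_connected_iff_paths_homotopic']
  refine ⟨h.pathConnectedSpace, fun {x y} p q => ?_⟩
  exact h.homotopy (S := {0, 1}) (Set.toFinite _).isClosed p.toContinuousMap q.toContinuousMap (by
    rintro t (ht | ht)
    · rw [ht]
      show p 0 = q 0
      rw [p.source, q.source]
    · have ht' : t = 1 := ht
      rw [ht']
      show p 1 = q 1
      rw [p.target, q.target])

/-- the homotopy groups of `CEX` spaces are trivial -/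
theorem CEX.genLoop (h : CEX Z) {n : ℕ} {e : Z} (F : Ω^ (Fin n) Z e) :
    GenLoop.Homotopic F GenLoop.const := by
  refine h.homotopy (S := Cube.boundary (Fin n)) ?_ F.1 (GenLoop.const : Ω^ (Fin n) Z e).1 ?_
  · have : Cube.boundary (Fin n) = ⋃ i, ({x : Fin n → I | x i = 0} ∪ {x | x i = 1}) := by
      ext x
      simp only [Cube.boundary, mem_ofPred_eq, mem_iUnion, mem_union]
    rw [this]
    refine isClosed_iUnion_of_finite fun i => ?_
    exact (isClosed_eq (continuous_apply i) continuous_const).union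
      (isClosed_eq (continuous_apply i) continuous_const)
  · intro x hx
    exact F.2 x hx

end Pool.KT
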