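import Pool.Agent.Work.MP_70ab54_gt.Glue

/-!
# Homotopy groups of spaces with nice coverings (helper64)

`genLoop_trivial`: a generalized loop whose image lies in a contractible set is null homotopic.
`pi_trivial_of_cover`: if `p : E → X` is a covering map, surjective, and every compact subset of `E`
lies in a contractible set then `π_n X x` is trivial for `n ≥ 2`.
-/

set_option autoImplicit false

namespace Pool.KT

open Set Topology Filter unitInterval
open scoped Topology.Homotopy

variable {Z : Type*} [TopologicalSpace Z]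

/-- `max |2 y_i - 1|` -/
noncomputable def rh {n : ℕ} (y : Fin n → I) : ℝ := ‖(fun i => 2 * (y i : ℝ) - 1 : Fin n → ℝ)‖

lemma rh_cont {n : ℕ} : Continuous (rh (n := n)) := by
  unfold rh
  fun_prop

lemma rh_boundary {n : ℕ} {y : Fin n → I} (hy : y ∈ Cube.boundary (Fin n)) : 1 ≤ rh y := by
  obtain ⟨i, hi⟩ := hy
  have h := norm_le_pi_norm (fun i => 2 * (y i : ℝ) - 1 : Fin n → ℝ) i
  have h2 : ‖(2 * (y i : ℝ) - 1)‖ = 1 := by
    rcases hi with hi | hi <;> rw [hi] <;> norm_num
  unfold rh
  linarith

/-- scaled and clipped point -/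
noncomputable def rt {n : ℕ} (t : ℝ) (y : Fin n → I) : Fin n → I := fun i =>
  projIcc 0 1 zero_le_one (1 / 2 + ((y i : ℝ) - 1 / 2) / (1 - t / 2))

lemma rt_zero {n : ℕ} (y : Fin n → I) : rt 0 y = y := by
  funext i
  unfold rt
  have : (1 / 2 + ((y i : ℝ) - 1 / 2) / (1 - 0 / 2)) = (y i : ℝ) := by ring
  rw [this]
  exact projIcc_val _ _

lemma rt_boundary {n : ℕ} {y : Fin n → I} {t : ℝ} (ht0 : 0 ≤ t) (ht1 : t ≤ 1)
    (h : 1 - t / 2 ≤ rh y) (hn : 0 < n) : rt t y ∈ Cube.boundary (Fin n) := by
  -- there is a coordinate with |2 y_i - 1| = rh y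
  have hex : ∃ i, 1 - t / 2 ≤ |2 * (y i : ℝ) - 1| := by
    by_contra hcon
    push Not at hcon
    have h2 : rh y < 1 - t / 2 := by
      unfold rh
      have : Nonempty (Fin n) := ⟨⟨0, hn⟩⟩
      rw [pi_norm_lt_iff (by linarith)]
      intro i
      rw [Real.norm_eq_abs]
      exact hcon i
    linarith
  obtain ⟨i, hi⟩ := hex
  refine ⟨i, ?_⟩
  have hpos : 0 < 1 - t / 2 := by linarith
  unfold rt
  rcases le_abs.1 hi with h1 | h1
  · right
    apply projIcc_of_right_le
    have : 1 / 2 ≤ ((y i : ℝ) - 1 / 2) / (1 - t / 2) := by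
      rw [le_div_iff₀ hpos]
      linarith
    linarith
  · left
    apply projIcc_of_le_left
    have : ((y i : ℝ) - 1 / 2) / (1 - t / 2) ≤ -(1 / 2) := by
      rw [div_le_iff₀ hpos]
      linarith
    linarith

lemma rt_mem_boundary {n : ℕ} {y : Fin n → I} {t : ℝ} (ht0 : 0 ≤ t) (ht1 : t ≤ 1)
    (hy : y ∈ Cube.boundary (Fin n)) : rt t y ∈ Cube.boundary (Fin n) := by
  obtain ⟨i, hi⟩ := hy
  have hn : 0 < n := lt_of_le_of_lt (Nat.zero_le _) i.2
  refine rt_boundary ht0 ht1 ?_ hn
  have := rh_boundary (y := y) ⟨i, hi⟩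
  linarith

lemma rt_cont {n : ℕ} : Continuous (fun p : I × (Fin n → I) => rt (p.1 : ℝ) p.2) := by
  apply continuous_pi
  intro i
  refine continuous_projIcc.comp ?_
  refine continuous_const.add (Continuous.div ?_ ?_ ?_)
  · fun_prop
  · fun_prop
  · intro p
    have := p.1.2.2
    have h2 : (0 : ℝ) < 1 - (p.1 : ℝ) / 2 := by linarith
    exact h2.ne'

/-- a generalized loop inside a contractible set is null homotopic -/
theorem genLoop_trivial {n : ℕ} (hn : 0 < n) {e : Z} (F : Ω^ (Fin n) Z e) {V : Set Z} {w : Z}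
    (hV : ContrOn V w) (hF : ∀ y, F y ∈ V) : GenLoop.Homotopic F GenLoop.const := by
  obtain ⟨hw, G, Gc, Gm, G0, G1⟩ := hV
  have : Nonempty (Fin n) := ⟨⟨0, hn⟩⟩
  have heV : e ∈ V := by
    have hb : (fun _ => 0 : Fin n → I) ∈ Cube.boundary (Fin n) := ⟨⟨0, hn⟩, Or.inl rfl⟩
    rw [← F.2 _ hb]
    exact hF _
  have Fc : Continuous (F : (Fin n → I) → Z) := F.1.continuous
  set th : I × (Fin n → I) → ℝ := fun p => min (p.1 : ℝ) (max 0 (2 * (1 - rh p.2))) with hth
  have thc : Continuous th := by
    have : Continuous (fun p : I × (Fin n → I) => rh p.2) := rh_cont.comp continuous_snd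
    fun_prop
  -- first homotopy
  let H1 : C(I × (Fin n → I), Z) :=
    ⟨fun p => G (F (rt (p.1 : ℝ) p.2)) (th p), by
      have h1 : Continuous (fun p : I × (Fin n → I) => (F (rt (p.1 : ℝ) p.2), th p)) :=
        (Fc.comp rt_cont).prodMk thc
      exact Gc.comp_continuous h1 (fun p => ⟨hF _, mem_univ _⟩)⟩
  let g : C(Fin n → I, Z) := ⟨fun y => G e (min 1 (max 0 (2 * (1 - rh y)))), by
    have h1 : Continuous (fun y : Fin n → I => (e, min 1 (max 0 (2 * (1 - rh y))))) := by
      have := rh_cont (n := n)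
      fun_prop
    exact Gc.comp_continuous h1 (fun p => ⟨heV, mem_univ _⟩)⟩
  have hb0 : ∀ y ∈ Cube.boundary (Fin n), max 0 (2 * (1 - rh y)) = 0 := by
    intro y hy
    have := rh_boundary hy
    exact max_eq_left (by linarith)
  have hom1 : F.1.HomotopicRel g (Cube.boundary (Fin n)) := by
    refine ⟨⟨⟨H1, ?_, ?_⟩, ?_⟩⟩
    · intro y
      show G (F (rt ((0 : I) : ℝ) y)) (th (0, y)) = F y
      have e1 : th (0, y) = 0 := by
        simp only [hth]
        exact min_eq_left (le_max_left _ _)
      rw [e1]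
      have e2 : rt ((0 : I) : ℝ) y = y := rt_zero y
      rw [e2, G0 _ (hF _)]
    · intro y
      show G (F (rt ((1 : I) : ℝ) y)) (th (1, y)) = G e (min 1 (max 0 (2 * (1 - rh y))))
      have e1 : th (1, y) = min 1 (max 0 (2 * (1 - rh y))) := rfl
      rw [e1]
      rcases le_or_gt (1 / 2) (rh y) with h | h
      · have e2 : rt ((1 : I) : ℝ) y ∈ Cube.boundary (Fin n) := by
          refine rt_boundary (t := ((1 : I) : ℝ)) zero_le_one le_rfl ?_ hn
          show 1 - 1 / 2 ≤ rh y
          linarith
        have e3 : F (rt ((1 : I) : ℝ) y) = e := F.2 _ e2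
        rw [e3]
      · have e2 : min 1 (max 0 (2 * (1 - rh y))) = 1 := by
          apply min_eq_left
          exact le_max_of_le_right (by linarith)
        rw [e2, G1 _ (hF _), G1 _ heV]
    · intro t y hy
      show G (F (rt (t : ℝ) y)) (th (t, y)) = F y
      have e1 : th (t, y) = 0 := by
        simp only [hth]
        rw [hb0 y hy]
        exact min_eq_right t.2.1
      have e2 : F (rt (t : ℝ) y) = e := F.2 _ (rt_mem_boundary t.2.1 t.2.2 hy)
      have e3 : F y = e := F.2 _ hy
      rw [e1, e2, e3, G0 _ heV]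
  -- second homotopy
  let H2 : C(I × (Fin n → I), Z) :=
    ⟨fun p => G e ((1 - (p.1 : ℝ)) * min 1 (max 0 (2 * (1 - rh p.2)))), by
      have h1 : Continuous (fun p : I × (Fin n → I) =>
          (e, (1 - (p.1 : ℝ)) * min 1 (max 0 (2 * (1 - rh p.2))))) := by
        have : Continuous (fun p : I × (Fin n → I) => rh p.2) := rh_cont.comp continuous_snd
        fun_prop
      exact Gc.comp_continuous h1 (fun p => ⟨heV, mem_univ _⟩)⟩
  have hom2 : g.HomotopicRel (GenLoop.const : Ω^ (Fin n) Z e).1 (Cube.boundary (Fin n)) := by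
    refine ⟨⟨⟨H2, ?_, ?_⟩, ?_⟩⟩
    · intro y
      show G e ((1 - ((0 : I) : ℝ)) * min 1 (max 0 (2 * (1 - rh y)))) =
        G e (min 1 (max 0 (2 * (1 - rh y))))
      have : ((0 : I) : ℝ) = 0 := rfl
      rw [this, sub_zero, one_mul]
    · intro y
      show G e ((1 - ((1 : I) : ℝ)) * min 1 (max 0 (2 * (1 - rh y)))) = e
      have : ((1 : I) : ℝ) = 1 := rfl
      rw [this, sub_self, zero_mul, G0 _ heV]
    · intro t y hy
      show G e ((1 - (t : ℝ)) * min 1 (max 0 (2 * (1 - rh y)))) =
        G e (min 1 (max 0 (2 * (1 - rh y))))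
      rw [hb0 y hy, min_eq_right zero_le_one, mul_zero]
  exact hom1.trans hom2

/-- a continuous map of the cube to the covering space which is constant on the boundary
downstairs is constant on the boundary -/
lemma boundary_const {n : ℕ} (hn : 2 ≤ n) {X : Type*} [TopologicalSpace X] {p : Z → X}
    (cov : IsCoveringMap p) {x : X} (F : C(Fin n → I, Z))
    (hF : ∀ y ∈ Cube.boundary (Fin n), p (F y) = x) :
    ∀ y ∈ Cube.boundary (Fin n), F y = F (fun _ => 0) := by
  -- paths in the boundary
  have hpath : ∀ γ : C(I, Fin n → I), (∀ t, γ t ∈ Cube.boundary (Fin n)) → F (γ 0) = F (γ 1) := by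
    intro γ hγ
    exact cov.const_of_comp (F.comp γ).continuous
      (fun a a' => by
        show p (F (γ a)) = p (F (γ a'))
        rw [hF _ (hγ a), hF _ (hγ a')]) 0 1
  intro y hy
  obtain ⟨i, hi⟩ := hy
  -- first move: all coordinates but i go to 0
  let γ1 : C(I, Fin n → I) := ⟨fun t j => if j = i then y i else σ t * y j, by
    apply continuous_pi
    intro j
    by_cases h : j = i
    · simp only [h, if_true]; exact continuous_const
    · simp only [h, if_false]
      exact (continuous_symm).mul continuous_const⟩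
  have h1 : F (γ1 0) = F (γ1 1) := hpath γ1 (fun t => ⟨i, by
    show (if i = i then y i else σ t * y i) = 0 ∨ (if i = i then y i else σ t * y i) = 1
    rw [if_pos rfl]; exact hi⟩)
  have e0 : γ1 0 = y := by
    funext j
    show (if j = i then y i else σ 0 * y j) = y j
    split_ifs with h
    · rw [h]
    · rw [symm_zero, one_mul]
  -- second move: the coordinate i goes to 0
  let γ2 : C(I, Fin n → I) := ⟨fun t j => if j = i then σ t * y i else 0, by
    apply continuous_pi
    intro j
    by_cases h : j = i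
    · simp only [h, if_true]
      exact (continuous_symm).mul continuous_const
    · simp only [h, if_false]; exact continuous_const⟩
  obtain ⟨j0, hj0⟩ : ∃ j0 : Fin n, j0 ≠ i := by
    have : Nontrivial (Fin n) := Fin.nontrivial_iff_two_le.2 hn
    exact exists_ne i
  have h2 : F (γ2 0) = F (γ2 1) := hpath γ2 (fun t => ⟨j0, Or.inl (by
    show (if j0 = i then σ t * y i else 0) = 0
    rw [if_neg hj0])⟩)
  have e1 : γ1 1 = γ2 0 := by
    funext j
    show (if j = i then y i else σ 1 * y j) = (if j = i then σ 0 * y i else 0)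
    split_ifs with h
    · rw [symm_zero, one_mul]
    · rw [symm_one, zero_mul]
  have e2 : γ2 1 = fun _ => 0 := by
    funext j
    show (if j = i then σ 1 * y i else 0) = 0
    split_ifs with h
    · rw [symm_one, zero_mul]
    · rfl
  rw [← e0, h1, e1, h2, e2]

/-- every compact subset lies in a contractible set -/
def CContr (Z : Type*) [TopologicalSpace Z] : Prop :=
  ∀ C : Set Z, IsCompact C → ∃ (V : Set Z) (w : Z), C ⊆ V ∧ ContrOn V w

/-- the higher homotopy groups of a space with a nice covering are trivial -/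
theorem pi_trivial_of_cover {X : Type*} [TopologicalSpace X] {p : Z → X} (cov : IsCoveringMap p)
    (hsurj : Function.Surjective p) (hZ : CContr Z) (n : ℕ) (hn : 2 ≤ n) (x : X) :
    Subsingleton (HomotopyGroup.Pi n X x) := by
  have hn0 : 0 < n := by omega
  have key : ∀ f : Ω^ (Fin n) X x, GenLoop.Homotopic f GenLoop.const := by
    intro f
    obtain ⟨e, he⟩ := hsurj x
    -- extend f to ℝ^n
    let f' : C(Fin n → ℝ, X) := ⟨fun y => f (fun i => projIcc 0 1 zero_le_one (y i)), by
      refine f.1.continuous.comp ?_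
      apply continuous_pi
      intro i
      exact continuous_projIcc.comp (continuous_apply i)⟩
    have h0 : f' 0 = x := by
      refine f.2 _ ⟨⟨0, hn0⟩, Or.inl ?_⟩
      show projIcc (0 : ℝ) 1 zero_le_one 0 = 0
      exact projIcc_left _
    obtain ⟨F', ⟨hF0, hF1⟩, -⟩ := cov.existsUnique_continuousMap_lifts f' 0 e (by rw [he, h0])
    let F : C(Fin n → I, Z) := ⟨fun y => F' (fun i => (y i : ℝ)), by fun_prop⟩
    have hpF : ∀ y, p (F y) = f y := by
      intro y
      have := congrFun hF1 (fun i => (y i : ℝ))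
      show p (F' (fun i => (y i : ℝ))) = f y
      have h2 : p (F' (fun i => (y i : ℝ))) = f' (fun i => (y i : ℝ)) := this
      rw [h2]
      show f (fun i => projIcc 0 1 zero_le_one (y i : ℝ)) = f y
      congr 1
      funext i
      exact projIcc_val _ _
    have hFe : F (fun _ => 0) = e := by
      show F' (fun i => ((0 : I) : ℝ)) = e
      exact hF0
    have hbd : ∀ y ∈ Cube.boundary (Fin n), F y = e := by
      intro y hy
      rw [boundary_const hn cov F (x := x) (fun y hy => by rw [hpF y]; exact f.2 y hy) y hy, hFe]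
    let FF : Ω^ (Fin n) Z e := ⟨F, hbd⟩
    obtain ⟨V, w, hCV, hV⟩ := hZ (range F) (isCompact_range F.continuous)
    have hFF : GenLoop.Homotopic FF GenLoop.const :=
      genLoop_trivial hn0 FF hV (fun y => hCV ⟨y, rfl⟩)
    have h3 : (F).HomotopicRel (ContinuousMap.const _ e) (Cube.boundary (Fin n)) := hFF
    have h4 := h3.comp_continuousMap (⟨p, cov.continuous⟩ : C(Z, X))
    have e1 : (⟨p, cov.continuous⟩ : C(Z, X)).comp F = f.1 := by
      ext y; exact hpF y
    have e2 : (⟨p, cov.continuous⟩ : C(Z, X)).comp (ContinuousMap.const _ e) =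
        (GenLoop.const : Ω^ (Fin n) X x).1 := by
      ext y; exact he
    rw [e1, e2] at h4
    exact h4
  constructor
  intro a b
  induction a using Quotient.inductionOn with
  | _ a =>
    induction b using Quotient.inductionOn with
    | _ b => exact Quotient.sound ((key a).trans (key b).symm)

end Pool.KT
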