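import Pool.Agent.Work.MP_70ab54_gt.Defs
import Pool.Agent.Work.MP_70ab54_gt.AE2
import Pool.Agent.Work.MP_70ab54_gt.NC

/-!
# Absolute extensors: interface for types and subtypes (helper64)
-/

set_option autoImplicit false

namespace Pool.KT

open Set Topology Filter unitInterval
open scoped Topology.Homotopy

variable {Z Z' : Type*} [TopologicalSpace Z] [TopologicalSpace Z']

/-! ## Relation between `AE` and the working form `EX` -/

theorem AE.nonempty (h : AE Z) : Nonempty Z := by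
  obtain ⟨g, -⟩ := h PUnit ∅ isClosed_empty ⟨fun x => x.2.elim, by
    rw [continuous_iff_continuousAt]; intro x; exact x.2.elim⟩
  exact ⟨g PUnit.unit⟩

theorem ae_iff (Y : Set Z) : AE Y ↔ Y.Nonempty ∧ EX Y := by
  classical
  constructor
  · intro h
    have hne : Nonempty Y := h.nonempty
    refine ⟨nonempty_coe_sort.1 hne, ?_⟩
    intro X _ _ A B hA hB hAB f hf hm
    obtain ⟨g, hg⟩ := h X A hA ⟨fun a => ⟨f a, hm a.2⟩, by
      refine Continuous.subtype_mk ?_ _
      exact continuousOn_iff_continuous_domRestrict.1 hf⟩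
    refine ⟨fun x => g x, (continuous_subtype_val.comp g.continuous).continuousOn,
      fun x _ => (g x).2, fun x hx => ?_⟩
    show ((g x : Y) : Z) = f x
    rw [hg ⟨x, hx⟩]
    rfl
  · rintro ⟨⟨z, hz⟩, h⟩ B _ _ A hA f
    have hdef : ∀ a : A, (if h : (a : B) ∈ A then ((f ⟨a, h⟩ : Y) : Z) else z) = f a := by
      intro a
      rw [dif_pos a.2]
    obtain ⟨g, cg, mg, eg⟩ := h B A univ hA isClosed_univ (subset_univ _)
      (fun x => if h : x ∈ A then ((f ⟨x, h⟩ : Y) : Z) else z) (by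
        rw [continuousOn_iff_continuous_domRestrict]
        have : A.domRestrict (fun x => if h : x ∈ A then ((f ⟨x, h⟩ : Y) : Z) else z) =
            fun a => ((f a : Y) : Z) := funext hdef
        rw [this]
        exact continuous_subtype_val.comp f.continuous) (by
        intro x hx
        show (if h : x ∈ A then ((f ⟨x, h⟩ : Y) : Z) else z) ∈ Y
        rw [dif_pos hx]
        exact (f ⟨x, hx⟩).2)
    refine ⟨⟨fun x => ⟨g x, mg (mem_univ x)⟩, (continuousOn_univ.1 cg).subtype_mk _⟩, ?_⟩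
    intro a
    apply Subtype.ext
    show g a = f a
    rw [eg a.2]
    exact hdef a

theorem ae_univ_iff : AE (univ : Set Z) ↔ AE Z := by
  constructor
  · intro h B _ _ A hA f
    obtain ⟨g, hg⟩ := h B A hA ⟨fun a => ⟨f a, mem_univ _⟩, f.continuous.subtype_mk _⟩
    refine ⟨⟨fun x => (g x).1, continuous_subtype_val.comp g.continuous⟩, fun a => ?_⟩
    exact congrArg Subtype.val (hg a)
  · intro h B _ _ A hA f
    obtain ⟨g, hg⟩ := h B A hA ⟨fun a => (f a).1, continuous_subtype_val.comp f.continuous⟩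
    refine ⟨⟨fun x => ⟨g x, mem_univ _⟩, g.continuous.subtype_mk _⟩, fun a => ?_⟩
    exact Subtype.ext (hg a)

theorem ae_iff_univ : AE Z ↔ Nonempty Z ∧ EX (univ : Set Z) := by
  rw [← ae_univ_iff, ae_iff, nonempty_iff_univ_nonempty]

theorem AE.ex {Y : Set Z} (h : AE Y) : EX Y := ((ae_iff Y).1 h).2

theorem AE.set_nonempty {Y : Set Z} (h : AE Y) : Y.Nonempty := ((ae_iff Y).1 h).1

theorem EX.toAE {Y : Set Z} (h : EX Y) (hne : Y.Nonempty) : AE Y := (ae_iff Y).2 ⟨hne, h⟩

/-! ## Closure properties -/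

/-- retracts -/
theorem AE.of_retract (h : AE Z) (i : C(Z', Z)) (r : C(Z, Z')) (hri : ∀ y, r (i y) = y) :
    AE Z' := by
  intro B _ _ A hA f
  obtain ⟨g, hg⟩ := h B A hA (i.comp f)
  refine ⟨r.comp g, fun a => ?_⟩
  show r (g a) = f a
  rw [hg a]
  exact hri _

theorem AE.homeomorph (h : AE Z) (e : Z ≃ₜ Z') : AE Z' :=
  h.of_retract ⟨e.symm, e.symm.continuous⟩ ⟨e, e.continuous⟩ (fun y => e.apply_symm_apply y)

/-- retracts of sets -/
theorem AE.of_retract_set {Y : Set Z} {Y' : Set Z'} (hY : AE Y) (i : Z' → Z) (r : Z → Z')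
    (hi : ContinuousOn i Y') (mi : MapsTo i Y' Y) (hr : ContinuousOn r Y) (mr : MapsTo r Y Y')
    (hri : ∀ y ∈ Y', r (i y) = y) : AE Y' :=
  (hY.ex.of_retract i r hi mi hr mr hri).toAE (by
    obtain ⟨y, hy⟩ := hY.set_nonempty
    exact ⟨r y, mr hy⟩)

theorem AE.image_homeomorph {Y : Set Z} (hY : AE Y) (e : Z ≃ₜ Z') : AE (e '' Y) :=
  (hY.ex.image_homeomorph e).toAE (hY.set_nonempty.image e)

/-- image under an embedding -/
theorem AE.image_embedding {Y : Set Z} (hY : AE Y) {f : Z → Z'} (hf : IsEmbedding f) :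
    AE (f '' Y) := by
  refine hY.homeomorph (hf.homeomorphImage Y)

theorem AE.range_embedding (h : AE Z) {f : Z → Z'} (hf : IsEmbedding f) : AE (range f) :=
  h.homeomorph hf.toHomeomorph

/-- preimage under an embedding of a set contained in the range -/
theorem AE.preimage_embedding {f : Z → Z'} (hf : IsEmbedding f) {Y : Set Z'}
    (hY : AE Y) (hsub : Y ⊆ range f) : AE (f ⁻¹' Y) := by
  have e1 : f '' (f ⁻¹' Y) = Y := by rw [image_preimage_eq_inter_range, inter_eq_left.2 hsub]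
  have h2 : AE (f '' (f ⁻¹' Y)) := by rw [e1]; exact hY
  exact h2.homeomorph (hf.homeomorphImage (f ⁻¹' Y)).symm

theorem AE.prod {Y : Type*} {Y' : Type*} [TopologicalSpace Y] [TopologicalSpace Y'] (hY : AE Y)
    (hY' : AE Y') : AE (Y × Y') := by
  intro B _ _ A hA f
  obtain ⟨g, hg⟩ := hY B A hA ⟨fun a => (f a).1, continuous_fst.comp f.continuous⟩
  obtain ⟨g', hg'⟩ := hY' B A hA ⟨fun a => (f a).2, continuous_snd.comp f.continuous⟩
  exact ⟨⟨fun x => (g x, g' x), g.continuous.prodMk g'.continuous⟩,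
    fun a => Prod.ext (hg a) (hg' a)⟩

theorem AE.pi {ι : Type*} {Y : ι → Type*} [∀ i, TopologicalSpace (Y i)] (h : ∀ i, AE (Y i)) :
    AE (∀ i, Y i) := by
  intro B _ _ A hA f
  choose g hg using fun i => h i B A hA ⟨fun a => f a i, (continuous_apply i).comp f.continuous⟩
  exact ⟨⟨fun x i => g i x, continuous_pi fun i => (g i).continuous⟩,
    fun a => funext fun i => hg i a⟩

theorem AE.prod_set {Y : Set Z} {Y' : Set Z'} (hY : AE Y) (hY' : AE Y') : AE ↥(Y ×ˢ Y') :=
  (hY.ex.prod hY'.ex).toAE (hY.set_nonempty.prod hY'.set_nonempty)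

theorem ae_real : AE ℝ := by
  intro B _ _ A hA f
  obtain ⟨g, hg⟩ := ContinuousMap.exists_restrict_eq hA f
  exact ⟨g, fun a => congrArg (fun h : C(A, ℝ) => h a) hg⟩

theorem ae_of_tietze (E : Type*) [TopologicalSpace E] [TietzeExtension.{0} E] : AE E := by
  intro B _ _ A hA f
  obtain ⟨g, hg⟩ := ContinuousMap.exists_restrict_eq hA f
  exact ⟨g, fun a => congrArg (fun h : C(A, E) => h a) hg⟩

/-- union of two closed sets -/
theorem AE.union_closed {U V : Set Z} (hU : AE U) (hV : AE V) (hI : AE ↥(U ∩ V))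
    (cU : IsClosed U) (cV : IsClosed V) : AE ↥(U ∪ V) :=
  (hU.ex.union_closed hV.ex hI.ex cU cV).toAE (hU.set_nonempty.mono subset_union_left)

/-- union of two relatively closed sets -/
theorem AE.union_relClosed {U V : Set Z} (hU : AE U) (hV : AE V) (hI : AE ↥(U ∩ V))
    {F G : Set Z} (hF : IsClosed F) (hG : IsClosed G) (hFU : F ∩ (U ∪ V) = U)
    (hGV : G ∩ (U ∪ V) = V) : AE ↥(U ∪ V) :=
  (hU.ex.union_relClosed hV.ex hI.ex hF hG hFU hGV).toAE (hU.set_nonempty.mono subset_union_left)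

/-- union of two open sets -/
theorem AE.union_open {U V : Set Z} (hU : AE U) (hV : AE V) (hI : AE ↥(U ∩ V))
    (oU : IsOpen U) (oV : IsOpen V) : AE ↥(U ∪ V) :=
  (hU.ex.union_open hV.ex hI.ex oU oV).toAE (hU.set_nonempty.mono subset_union_left)

/-- covering by two closed sets -/
theorem AE.of_closed_cover {U V : Set Z} (hU : AE U) (hV : AE V) (hI : AE ↥(U ∩ V))
    (cU : IsClosed U) (cV : IsClosed V) (h : U ∪ V = univ) : AE Z := by
  rw [← ae_univ_iff, ← h]
  exact hU.union_closed hV hI cU cV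

/-- covering by two open sets -/
theorem AE.of_open_cover {U V : Set Z} (hU : AE U) (hV : AE V) (hI : AE ↥(U ∩ V))
    (oU : IsOpen U) (oV : IsOpen V) (h : U ∪ V = univ) : AE Z := by
  rw [← ae_univ_iff, ← h]
  exact hU.union_open hV hI oU oV

/-- a finite union of closed sets all of whose intersections with `C` are absolute extensors -/
theorem AE.biUnion_inter {ι : Type*} (F : ι → Set Z) (hF : ∀ i, IsClosed (F i)) (s : Finset ι)
    (C : Set Z) (hC : IsClosed C) (hs : s.Nonempty)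
    (h : ∀ t : Finset ι, t ⊆ s → t.Nonempty → AE ↥(C ∩ ⋂ i ∈ t, F i)) :
    AE ↥(C ∩ ⋃ i ∈ s, F i) := by
  refine (EX.biUnion_inter F hF s C hC hs (fun t ht htn => (h t ht htn).ex)).toAE ?_
  obtain ⟨i, hi⟩ := hs
  obtain ⟨z, hz, hz2⟩ := (h {i} (by simpa using hi) (Finset.singleton_nonempty i)).set_nonempty
  refine ⟨z, hz, mem_biUnion hi ?_⟩
  simpa using hz2

/-- a finite union of closed sets all of whose nonempty intersections are absolute extensors -/
theorem AE.biUnion {ι : Type*} (F : ι → Set Z) (hF : ∀ i, IsClosed (F i)) (s : Finset ι)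
    (hs : s.Nonempty) (h : ∀ t : Finset ι, t ⊆ s → t.Nonempty → AE ↥(⋂ i ∈ t, F i)) :
    AE ↥(⋃ i ∈ s, F i) := by
  have := AE.biUnion_inter F hF s univ isClosed_univ hs (fun t ht htn => by
    rw [univ_inter]; exact h t ht htn)
  rwa [univ_inter] at this

/-- galleries: pieces added one by one -/
theorem AE.gallery (P : ℕ → Set Z) (cl : ∀ k, IsClosed (P k)) (h : ∀ k, AE (P k))
    (hI : ∀ k, AE ↥(P (k + 1) ∩ ⋃ j ∈ Finset.range (k + 1), P j)) (k : ℕ) :
    AE ↥(⋃ j ∈ Finset.range (k + 1), P j) := by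
  refine (EX.gallery P cl (fun k => (h k).ex) (fun k => (hI k).ex) k).toAE ?_
  obtain ⟨z, hz⟩ := (h 0).set_nonempty
  exact ⟨z, mem_biUnion (Finset.mem_coe.2 (Finset.mem_range.2 (Nat.succ_pos k))) hz⟩

/-! ## Base cases -/

/-- a contractible neighbourhood extensor -/
theorem ANE.ae {Y : Set Z} (h : ANE Y) {p : Z} (hp : p ∈ Y) (H : Z × ℝ → Z)
    (Hc : ContinuousOn H (Y ×ˢ Icc (0 : ℝ) 1)) (Hm : ∀ y ∈ Y, ∀ t ∈ Icc (0 : ℝ) 1, H (y, t) ∈ Y)
    (H0 : ∀ y ∈ Y, H (y, 0) = p) (H1 : ∀ y ∈ Y, H (y, 1) = y) : AE Y :=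
  (h.ex hp H Hc Hm H0 H1).toAE ⟨p, hp⟩

theorem ANE.ae_of_starConvex {E : Type*} [AddCommGroup E] [Module ℝ E] [TopologicalSpace E]
    [IsTopologicalAddGroup E] [ContinuousSMul ℝ E] {Y : Set E} (h : ANE Y) {p : E} (hp : p ∈ Y)
    (hs : StarConvex ℝ p Y) : AE Y :=
  (h.ex_of_starConvex hp hs).toAE ⟨p, hp⟩

/-- star shaped relatively open subsets of closed retracts of `ℝ^n` -/
theorem ae_of_retr_starConvex {E : Type} [AddCommGroup E] [Module ℝ E] [TopologicalSpace E]
    [IsTopologicalAddGroup E] [ContinuousSMul ℝ E] [TietzeExtension.{0, 0} E] {C W : Set E}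
    (r : E → E) (hr : Continuous r) (hrC : ∀ x, r x ∈ C) (hrid : ∀ x ∈ C, r x = x)
    (hW : IsOpen W) {p : E} (hp : p ∈ C ∩ W) (hs : StarConvex ℝ p (C ∩ W)) : AE ↥(C ∩ W) :=
  (EX.of_retr_starConvex r hr hrC hrid hW hp hs).toAE ⟨p, hp⟩

/-- star shaped open sets -/
theorem ae_of_open_starConvex {E : Type} [AddCommGroup E] [Module ℝ E] [TopologicalSpace E]
    [IsTopologicalAddGroup E] [ContinuousSMul ℝ E] [TietzeExtension.{0, 0} E] {W : Set E}
    (hW : IsOpen W) {p : E} (hp : p ∈ W) (hs : StarConvex ℝ p W) : AE W :=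
  (ANE.of_isOpen hW).ae_of_starConvex hp hs

/-- closed retracts of `ℝ^n` -/
theorem ae_of_retr {E : Type} [TopologicalSpace E] [TietzeExtension.{0, 0} E] {C : Set E}
    (r : E → E) (hr : Continuous r) (hrC : ∀ x, r x ∈ C) (hrid : ∀ x ∈ C, r x = x) : AE C :=
  (ae_of_tietze E).of_retract ⟨Subtype.val, continuous_subtype_val⟩
    ⟨fun x => ⟨r x, hrC x⟩, hr.subtype_mk _⟩ (fun y => Subtype.ext (hrid _ y.2))

/-- a set `Y` in an absolute extensor `C` such that a homotopy `H` of `C` with `H(y,1) = y` moves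
all points of `C` into `Y` for `t < 1` (for example a convex set minus a part of its boundary) -/
theorem AE.of_push {C Y : Set Z} (hC : AE C) (hYC : Y ⊆ C) (H : Z × ℝ → Z)
    (Hc : ContinuousOn H (C ×ˢ Icc (0 : ℝ) 1))
    (Hm : ∀ y ∈ C, ∀ t : ℝ, 0 ≤ t → t < 1 → H (y, t) ∈ Y)
    (H1 : ∀ y ∈ C, H (y, 1) = y) : AE Y := by
  obtain ⟨hne, hex⟩ := (ae_iff C).1 hC
  obtain ⟨y0, hy0⟩ := hne
  refine EX.toAE ?_ ⟨H (y0, 0), Hm y0 hy0 0 le_rfl one_pos⟩
  intro X _ _ A B hA hB hAB f hf hm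
  obtain ⟨F, cF, mF, eF⟩ := hex X A B hA hB hAB f hf (hm.mono_right hYC)
  rcases A.eq_empty_or_nonempty with e | hAne
  · subst e
    refine ⟨fun x => H (F x, 0), ?_, ?_, fun x hx => hx.elim⟩
    · exact Hc.comp (cF.prodMk continuousOn_const) (fun x hx => ⟨mF hx, le_rfl, zero_le_one⟩)
    · exact fun x hx => Hm _ (mF hx) 0 le_rfl one_pos
  set u : X → ℝ := fun x => max 0 (1 - Metric.infDist x A) with hu
  have cu : Continuous u := continuous_const.max (continuous_const.sub
    (Metric.continuous_infDist_pt _))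
  have hu0 : ∀ x, 0 ≤ u x := fun x => le_max_left _ _
  have hu1 : ∀ x, u x ≤ 1 := fun x => max_le zero_le_one (by
    have := Metric.infDist_nonneg (x := x) (s := A)
    linarith)
  have huA : ∀ x ∈ A, u x = 1 := by
    intro x hx
    show max 0 (1 - Metric.infDist x A) = 1
    rw [Metric.infDist_zero_of_mem hx, sub_zero]
    exact max_eq_right zero_le_one
  have huB : ∀ x, x ∉ A → u x < 1 := by
    intro x hx
    refine max_lt one_pos ?_
    have h1 : Metric.infDist x A ≠ 0 := fun h0 => hx ((hA.mem_iff_infDist_zero hAne).2 h0)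
    have h2 : 0 < Metric.infDist x A := lt_of_le_of_ne Metric.infDist_nonneg (Ne.symm h1)
    linarith
  refine ⟨fun x => H (F x, u x), ?_, ?_, ?_⟩
  · exact Hc.comp (cF.prodMk cu.continuousOn) (fun x hx => ⟨mF hx, hu0 x, hu1 x⟩)
  · intro x hx
    by_cases hxA : x ∈ A
    · show H (F x, u x) ∈ Y
      rw [huA x hxA, H1 _ (mF hx), eF hxA]
      exact hm hxA
    · exact Hm _ (mF hx) _ (hu0 x) (huB x hxA)
  · intro x hx
    show H (F x, u x) = f x
    rw [huA x hx, eF hx]
    exact H1 _ (hYC (hm hx))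

/-- an absolute extensor `C` in a vector space, star shaped about `p`, minus a set of points which
are not seen in the interior of segments from `p` -/
theorem AE.of_push_segment {E : Type*} [AddCommGroup E] [Module ℝ E] [TopologicalSpace E]
    [IsTopologicalAddGroup E] [ContinuousSMul ℝ E] {C Y : Set E} (hC : AE C) (hYC : Y ⊆ C) (p : E)
    (h : ∀ y ∈ C, ∀ t : ℝ, 0 ≤ t → t < 1 → (1 - t) • p + t • y ∈ Y) : AE Y := by
  refine hC.of_push hYC (fun q => (1 - q.2) • p + q.2 • q.1) ?_ h ?_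
  · exact (((continuous_const.sub continuous_snd).smul continuous_const).add
      (continuous_snd.smul continuous_fst)).continuousOn
  · intro y _
    show (1 - (1 : ℝ)) • p + (1 : ℝ) • y = y
    rw [sub_self, one_smul, zero_smul, zero_add]

/-! ## Exhaustions -/

/-- if every compact subset lies in an absolute extensor then the space is one -/
theorem AE.of_compact [Nonempty Z] (h : ∀ K : Set Z, IsCompact K → ∃ Y : Set Z, K ⊆ Y ∧ AE Y) :
    AE Z := by
  intro B _ _ A hA f
  have : CompactSpace A := isCompact_iff_compactSpace.1 hA.isCompact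
  obtain ⟨Y, hKY, hY⟩ := h (range f) (isCompact_range f.continuous)
  obtain ⟨g, hg⟩ := hY B A hA ⟨fun a => ⟨f a, hKY ⟨a, rfl⟩⟩, f.continuous.subtype_mk _⟩
  refine ⟨⟨fun x => (g x).1, continuous_subtype_val.comp g.continuous⟩, fun a => ?_⟩
  exact congrArg Subtype.val (hg a)

/-- directed unions -/
theorem AE.of_directed {ι : Type*} [Nonempty ι] (U : ι → Set Z) (hdir : Directed (· ⊆ ·) U)
    (hU : ∀ n, AE (U n)) (hnhds : ∀ z, ∃ n, U n ∈ 𝓝 z) : AE Z := by
  obtain ⟨i⟩ := ‹Nonempty ι›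
  have hne : Nonempty Z := ⟨(hU i).set_nonempty.some⟩
  have : Nonempty ι := ⟨i⟩
  refine AE.of_compact fun K hK => ?_
  have hdir' : Directed (· ⊆ ·) (fun n => interior (U n)) := by
    intro a b
    obtain ⟨c, h1, h2⟩ := hdir a b
    exact ⟨c, interior_mono h1, interior_mono h2⟩
  obtain ⟨n, hn⟩ := hK.elim_directed_cover (fun n => interior (U n)) (fun n => isOpen_interior)
    (fun z _ => by
      obtain ⟨n, hn⟩ := hnhds z
      exact mem_iUnion.2 ⟨n, mem_interior_iff_mem_nhds.2 hn⟩) hdir'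
  exact ⟨U n, hn.trans interior_subset, hU n⟩

/-- increasing unions -/
theorem AE.of_mono (U : ℕ → Set Z) (hmono : Monotone U) (hU : ∀ n, AE (U n))
    (hnhds : ∀ z, ∃ n, U n ∈ 𝓝 z) : AE Z :=
  AE.of_directed U hmono.directed_le hU hnhds

/-! ## Consequences -/

theorem AE.cex (h : AE Z) : CEX Z := fun _ _ => ⟨univ, subset_univ _, (ae_iff_univ.1 h).2⟩

theorem AE.pathConnectedSpace (h : AE Z) : PathConnectedSpace Z := by
  have := h.nonempty
  exact h.cex.pathConnectedSpace

theorem AE.simplyConnectedSpace (h : AE Z) : SimplyConnectedSpace Z := by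
  have := h.nonempty
  exact h.cex.simplyConnectedSpace

theorem AE.isPathConnected {Y : Set Z} (h : AE Y) : IsPathConnected Y :=
  isPathConnected_iff_pathConnectedSpace.2 h.pathConnectedSpace

theorem AE.homotopicRel (h : AE Z) {X : Type} [MetricSpace X] [CompactSpace X] {S : Set X}
    (hS : IsClosed S) (f g : C(X, Z)) (hfg : ∀ x ∈ S, f x = g x) : f.HomotopicRel g S :=
  h.cex.homotopy hS f g hfg

theorem AE.genLoop (h : AE Z) {n : ℕ} {e : Z} (F : Ω^ (Fin n) Z e) :
    GenLoop.Homotopic F GenLoop.const := h.cex.genLoop F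

theorem AE.pi_trivial (h : AE Z) (n : ℕ) (x : Z) : Subsingleton (HomotopyGroup.Pi n Z x) := by
  constructor
  intro a b
  induction a using Quotient.inductionOn with
  | _ a =>
    induction b using Quotient.inductionOn with
    | _ b => exact Quotient.sound ((h.genLoop a).trans (h.genLoop b).symm)

/-! ## `LAE` -/

theorem AE.lae (h : AE Z) : LAE Z := fun y => ⟨univ, mem_univ y, isClopen_univ, ae_univ_iff.2 h⟩

theorem LAE.of_isEmpty [IsEmpty Z] : LAE Z := fun y => isEmptyElim y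

theorem LAE.homeomorph (h : LAE Z) (e : Z ≃ₜ Z') : LAE Z' := by
  intro y
  obtain ⟨s, hs, hc, ha⟩ := h (e.symm y)
  refine ⟨e.symm ⁻¹' s, hs, hc.preimage e.symm.continuous, ?_⟩
  have : e.symm ⁻¹' s = e '' s := by rw [← e.image_eq_preimage_symm]
  rw [this]
  exact ha.image_homeomorph e

/-- in a disjoint union of sets -/
theorem LAE.of_cover (h : ∀ y : Z, ∃ s : Set Z, y ∈ s ∧ IsClopen s ∧ LAE s) : LAE Z := by
  intro y
  obtain ⟨s, hys, hs, hl⟩ := h y
  obtain ⟨t, hyt, ht, ha⟩ := hl ⟨y, hys⟩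
  refine ⟨Subtype.val '' t, ⟨⟨y, hys⟩, hyt, rfl⟩, ⟨?_, ?_⟩, ?_⟩
  · exact hs.1.isClosedEmbedding_subtypeVal.isClosedMap t ht.1
  · exact hs.2.isOpenEmbedding_subtypeVal.isOpenMap t ht.2
  · exact ha.image_embedding IsEmbedding.subtypeVal

/-- clopen subsets -/
theorem LAE.clopen (h : LAE Z) {s : Set Z} (hs : IsClopen s) : LAE s := by
  intro y
  obtain ⟨t, hyt, ht, ha⟩ := h y
  -- `t` is connected, so it is contained in `s`
  have hts : t ⊆ s := ha.isPathConnected.isConnected.isPreconnected.subset_isClopen hs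
    ⟨y, hyt, y.2⟩
  refine ⟨Subtype.val ⁻¹' t, hyt, ht.preimage continuous_subtype_val, ?_⟩
  exact ha.preimage_embedding IsEmbedding.subtypeVal (by rw [Subtype.range_coe]; exact hts)

theorem LAE.prod {Y Y' : Type*} [TopologicalSpace Y] [TopologicalSpace Y'] (h : LAE Y)
    (h' : LAE Y') : LAE (Y × Y') := by
  rintro ⟨y, y'⟩
  obtain ⟨s, hs, hc, ha⟩ := h y
  obtain ⟨s', hs', hc', ha'⟩ := h' y'
  exact ⟨s ×ˢ s', ⟨hs, hs'⟩, hc.prod hc', ha.prod_set ha'⟩

theorem LAE.of_discrete {ι : Type*} [TopologicalSpace ι] [DiscreteTopology ι] : LAE ι := by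
  intro y
  refine ⟨{y}, rfl, isClopen_discrete _, ?_⟩
  intro B _ _ A hA f
  exact ⟨ContinuousMap.const _ ⟨y, rfl⟩, fun a => Subtype.ext (f a).2.symm⟩

theorem LAE.sigma {ι : Type*} {Y : ι → Type*} [∀ i, TopologicalSpace (Y i)]
    (h : ∀ i, LAE (Y i)) : LAE (Σ i, Y i) := by
  rintro ⟨i, y⟩
  obtain ⟨s, hs, hc, ha⟩ := h i y
  refine ⟨Sigma.mk i '' s, ⟨y, hs, rfl⟩, ⟨?_, ?_⟩, ?_⟩
  · exact isClosedMap_sigmaMk s hc.1
  · exact isOpenMap_sigmaMk s hc.2
  · exact ha.image_embedding IsEmbedding.sigmaMk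

/-- retracts -/
theorem LAE.of_retract (h : LAE Z) (i : C(Z', Z)) (r : C(Z, Z')) (hri : ∀ y, r (i y) = y) :
    LAE Z' := by
  intro y
  obtain ⟨s, hs, hc, ha⟩ := h (i y)
  refine ⟨i ⁻¹' s, hs, hc.preimage i.continuous, ?_⟩
  have hm : MapsTo r s (i ⁻¹' s) := by
    -- the image of `s` is connected and meets the clopen set `i ⁻¹' s`
    have h1 : IsPreconnected (r '' s) :=
      ha.isPathConnected.isConnected.isPreconnected.image r r.continuous.continuousOn
    have h2 : r '' s ⊆ i ⁻¹' s := h1.subset_isClopen (hc.preimage i.continuous)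
      ⟨y, ⟨i y, hs, hri y⟩, hs⟩
    exact fun x hx => h2 ⟨x, hx, rfl⟩
  exact ha.of_retract_set i r i.continuous.continuousOn (fun x hx => hx) r.continuous.continuousOn
    hm (fun x _ => hri x)

/-- a preconnected `LAE` space is `AE` -/
theorem LAE.ae [ConnectedSpace Z] (h : LAE Z) : AE Z := by
  obtain ⟨y⟩ := (inferInstance : Nonempty Z)
  obtain ⟨s, hs, hc, ha⟩ := h y
  have : s = univ := hc.eq_univ ⟨y, hs⟩
  rw [this] at ha
  exact ae_univ_iff.1 ha

theorem LAE.genLoop (h : LAE Z) {n : ℕ} {e : Z} (F : Ω^ (Fin n) Z e) :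
    n = 0 ∨ GenLoop.Homotopic F GenLoop.const := by
  rcases Nat.eq_zero_or_pos n with h0 | hn
  · exact Or.inl h0
  right
  have : Nonempty (Fin n) := ⟨⟨0, hn⟩⟩
  obtain ⟨s, hs, hc, ha⟩ := h e
  have hF : ∀ y, F y ∈ s := by
    have h1 : IsPreconnected (range F.1) := isPreconnected_range F.1.continuous
    have h2 : range F.1 ⊆ s := h1.subset_isClopen hc
      ⟨e, ⟨fun _ => 0, F.2 _ ⟨⟨0, hn⟩, Or.inl rfl⟩⟩, hs⟩
    exact fun y => h2 ⟨y, rfl⟩
  obtain ⟨H, H0, H1, H2, -⟩ := ha.ex.homotopy (S := Cube.boundary (Fin n)) (by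
    have : Cube.boundary (Fin n) = ⋃ i, ({x : Fin n → I | x i = 0} ∪ {x | x i = 1}) := by
      ext x
      simp only [Cube.boundary, mem_ofPred_eq, mem_iUnion, mem_union]
    rw [this]
    refine isClosed_iUnion_of_finite fun i => ?_
    exact (isClosed_eq (continuous_apply i) continuous_const).union
      (isClosed_eq (continuous_apply i) continuous_const)) F.1
    (GenLoop.const : Ω^ (Fin n) Z e).1 hF (fun _ => hs) (fun x hx => F.2 x hx)
  exact ⟨⟨⟨H, H0, H1⟩, fun t x hx => H2 t x hx⟩⟩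

/-! ## Covering spaces -/

/-- the higher homotopy groups of a space with an `LAE` covering space are trivial -/
theorem pi_trivial_of_lae_cover {X : Type*} [TopologicalSpace X] {p : Z → X}
    (cov : IsCoveringMap p) (hsurj : Function.Surjective p) (hZ : LAE Z) (n : ℕ) (hn : 2 ≤ n)
    (x : X) : Subsingleton (HomotopyGroup.Pi n X x) := by
  have hn0 : 0 < n := by omega
  have key : ∀ f : Ω^ (Fin n) X x, GenLoop.Homotopic f GenLoop.const := by
    intro f
    obtain ⟨e, he⟩ := hsurj x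
    -- extend f to ℝ^n
    let f' : C(Fin n → ℝ, X) := ⟨fun y => f (fun i => projIcc 0 1 zero_le_one (y i)), by
      refine f.1.continuous.comp ?_
      apply continuous_pi
      intro i
      exact continuous_projIcc.comp (continuous_apply i)⟩
    have h0 : f' 0 = x := by
      refine f.2 _ ⟨⟨0, hn0⟩, Or.inl ?_⟩
      show projIcc (0 : ℝ) 1 zero_le_one 0 = 0
      exact projIcc_left _
    obtain ⟨F', ⟨hF0, hF1⟩, -⟩ := cov.existsUnique_continuousMap_lifts f' 0 e (by rw [he, h0])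
    let F : C(Fin n → I, Z) := ⟨fun y => F' (fun i => (y i : ℝ)), by fun_prop⟩
    have hpF : ∀ y, p (F y) = f y := by
      intro y
      have h2 : p (F' (fun i => (y i : ℝ))) = f' (fun i => (y i : ℝ)) :=
        congrFun hF1 (fun i => (y i : ℝ))
      show p (F' (fun i => (y i : ℝ))) = f y
      rw [h2]
      show f (fun i => projIcc 0 1 zero_le_one (y i : ℝ)) = f y
      congr 1
      funext i
      exact projIcc_val _ _
    have hFe : F (fun _ => 0) = e := by
      show F' (fun i => ((0 : I) : ℝ)) = e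
      exact hF0
    have hbd : ∀ y ∈ Cube.boundary (Fin n), F y = e := by
      intro y hy
      rw [boundary_const hn cov F (x := x) (fun y hy => by rw [hpF y]; exact f.2 y hy) y hy, hFe]
    let FF : Ω^ (Fin n) Z e := ⟨F, hbd⟩
    have hFF : GenLoop.Homotopic FF GenLoop.const := by
      rcases hZ.genLoop FF with h | h
      · omega
      · exact h
    have h3 : (F).HomotopicRel (ContinuousMap.const _ e) (Cube.boundary (Fin n)) := hFF
    have h4 := h3.comp_continuousMap (⟨p, cov.continuous⟩ : C(Z, X))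
    have e1 : (⟨p, cov.continuous⟩ : C(Z, X)).comp F = f.1 := by
      ext y; exact hpF y
    have e2 : (⟨p, cov.continuous⟩ : C(Z, X)).comp (ContinuousMap.const _ e) =
        (GenLoop.const : Ω^ (Fin n) X x).1 := by
      ext y; exact he
    rw [e1, e2] at h4
    exact h4
  constructor
  intro a b
  induction a using Quotient.inductionOn with
  | _ a =>
    induction b using Quotient.inductionOn with
    | _ b => exact Quotient.sound ((key a).trans (key b).symm)

end Pool.KT
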