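import Mathlib

/-!
# Definitions for the project MP_70ab54_gt

`AE Y`: absolute extensor for compact metric pairs.  `LAE Y`: every point has a clopen
neighbourhood which is an absolute extensor (all components are absolute extensors).
`GoodPair X E`: some covering space of `X` is an absolute extensor and the preimage of `E` is
a disjoint union of absolute extensors.
-/

set_option autoImplicit false

namespace Pool.KT

/-- absolute extensor for compact metric pairs -/
def AE (Y : Type*) [TopologicalSpace Y] : Prop :=
  ∀ (B : Type) [MetricSpace B] [CompactSpace B] (A : Set B), IsClosed A → ∀ f : C(A, Y),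
    ∃ g : C(B, Y), ∀ a : A, g a = f a

/-- every point has a clopen neighbourhood which is an absolute extensor -/
def LAE (Y : Type*) [TopologicalSpace Y] : Prop :=
  ∀ y : Y, ∃ s : Set Y, y ∈ s ∧ IsClopen s ∧ AE s

/-- a covering space which is an absolute extensor, such that the preimage of `E` is a disjoint
union of absolute extensors -/
def GoodPair (X : Type) [TopologicalSpace X] (E : Set X) : Prop :=
  ∃ (R : Type) (_ : TopologicalSpace R) (q : R → X), IsCoveringMap q ∧ AE R ∧ LAE (q ⁻¹' E)

end Pool.KT
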