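import Mathlib

/-!
# Gluing contractible open sets (helper64)

`ContrOn U w`: the set `U` can be contracted inside itself to the point `w`.
`ContrOn.glue`: if `U`, `V` are open, `U`, `V` and `U ∩ V` are contractible and there is a
Urysohn function for the pair, then `U ∪ V` is contractible.
-/

set_option autoImplicit false

namespace Pool.KT

open Set Topology Filter

/-- `U` can be contracted inside itself to the point `w` -/
def ContrOn {Z : Type*} [TopologicalSpace Z] (U : Set Z) (w : Z) : Prop :=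
  w ∈ U ∧ ∃ G : Z → ℝ → Z, ContinuousOn (fun p : Z × ℝ => G p.1 p.2) (U ×ˢ univ) ∧
    (∀ z ∈ U, ∀ t, G z t ∈ U) ∧ (∀ z ∈ U, G z 0 = z) ∧ (∀ z ∈ U, G z 1 = w)

variable {Z : Type*} [TopologicalSpace Z]

lemma continuousAt_ite_of_eq {X Y : Type*} [TopologicalSpace X] [TopologicalSpace Y]
    {p : X → Prop} [DecidablePred p] {A B : X → Y} {x : X} (hA : ContinuousAt A x)
    (hB : ContinuousAt B x) (h : A x = B x) : ContinuousAt (fun z => if p z then A z else B z) x := by
  have hx : (if p x then A x else B x) = A x := by split_ifs <;> simp [h]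
  show Tendsto (fun z => if p z then A z else B z) (𝓝 x) (𝓝 (if p x then A x else B x))
  rw [hx]
  rw [ContinuousAt, ← h] at hB
  intro N hN
  have h1 := hA hN
  have h2 := hB hN
  rw [mem_map] at h1 h2 ⊢
  filter_upwards [h1, h2] with z hz1 hz2
  show (if p z then A z else B z) ∈ N
  split_ifs
  · exact hz1
  · exact hz2

/-- clamp to `[0,1]` -/
noncomputable def cl (x : ℝ) : ℝ := max 0 (min 1 x)

lemma cl_cont : Continuous cl := by unfold cl; fun_prop
lemma cl_nonneg (x : ℝ) : 0 ≤ cl x := le_max_left _ _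
lemma cl_le_one (x : ℝ) : cl x ≤ 1 := max_le zero_le_one (min_le_left _ _)
lemma cl_of_nonpos {x : ℝ} (h : x ≤ 0) : cl x = 0 := by
  unfold cl
  rw [max_eq_left (le_trans (min_le_right _ _) h)]
lemma cl_of_one_le {x : ℝ} (h : 1 ≤ x) : cl x = 1 := by
  unfold cl
  rw [min_eq_left h, max_eq_right zero_le_one]

theorem ContrOn.glue {U V : Set Z} (hU : IsOpen U) (hV : IsOpen V) {w : Z}
    (f : Z → ℝ) (hf : ContinuousOn f (U ∪ V))
    (hf0 : ∀ z ∈ U, z ∉ V → f z = 0) (hf1 : ∀ z ∈ V, z ∉ U → f z = 1)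
    (cU : ContrOn U w) (cV : ContrOn V w) (cW : ContrOn (U ∩ V) w) : ContrOn (U ∪ V) w := by
  classical
  obtain ⟨hwU, GU, GUc, GUm, GU0, GU1⟩ := cU
  obtain ⟨hwV, GV, GVc, GVm, GV0, GV1⟩ := cV
  obtain ⟨hwW, GW, GWc, GWm, GW0, GW1⟩ := cW
  have hO : IsOpen (U ∪ V) := hU.union hV
  have hW : IsOpen (U ∩ V) := hU.inter hV
  -- continuity at points
  have GUa : ∀ z ∈ U, ∀ t, ContinuousAt (fun p : Z × ℝ => GU p.1 p.2) (z, t) := fun z hz t =>
    GUc.continuousAt ((hU.prod isOpen_univ).mem_nhds ⟨hz, mem_univ _⟩)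
  have GVa : ∀ z ∈ V, ∀ t, ContinuousAt (fun p : Z × ℝ => GV p.1 p.2) (z, t) := fun z hz t =>
    GVc.continuousAt ((hV.prod isOpen_univ).mem_nhds ⟨hz, mem_univ _⟩)
  have GWa : ∀ z ∈ U ∩ V, ∀ t, ContinuousAt (fun p : Z × ℝ => GW p.1 p.2) (z, t) := fun z hz t =>
    GWc.continuousAt ((hW.prod isOpen_univ).mem_nhds ⟨hz, mem_univ _⟩)
  have fa : ∀ z ∈ U ∪ V, ContinuousAt f z := fun z hz => hf.continuousAt (hO.mem_nhds hz)
  -- the parameters
  set lam : Z → ℝ := fun z => cl (3 * f z - 1) with hlam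
  set s : Z → ℝ := fun z => min 1 (min (4 * lam z) (4 - 4 * lam z)) with hs
  set t : Z → ℝ := fun z => min 1 |4 * lam z - 2| with ht
  have lama : ∀ z ∈ U ∪ V, ContinuousAt lam z := fun z hz =>
    cl_cont.continuousAt.comp (((fa z hz).const_mul 3).sub continuousAt_const)
  have sa : ∀ z ∈ U ∪ V, ContinuousAt s z := fun z hz =>
    continuousAt_const.min (((lama z hz).const_mul 4).min
      (continuousAt_const.sub ((lama z hz).const_mul 4)))
  have ta : ∀ z ∈ U ∪ V, ContinuousAt t z := fun z hz =>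
    continuousAt_const.min (((lama z hz).const_mul 4).sub continuousAt_const).abs
  have s0 : ∀ z, 0 ≤ s z := by
    intro z
    have h1 := cl_nonneg (3 * f z - 1)
    have h2 := cl_le_one (3 * f z - 1)
    simp only [hs, hlam]
    refine le_min zero_le_one (le_min (by linarith) (by linarith))
  have t0 : ∀ z, 0 ≤ t z := fun z => le_min zero_le_one (abs_nonneg _)
  -- first phase
  set Y : Z → ℝ → Z := fun z a => if z ∈ U ∩ V then GW z (min (cl a) (s z)) else z with hY
  have Ya : ∀ z ∈ U ∪ V, ∀ a, ContinuousAt (fun p : Z × ℝ => Y p.1 p.2) (z, a) := by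
    intro z hz a
    by_cases hzW : z ∈ U ∩ V
    · have h1 : ContinuousAt (fun p : Z × ℝ => GW p.1 (min (cl p.2) (s p.1))) (z, a) := by
        have h2 : ContinuousAt (fun p : Z × ℝ => (p.1, min (cl p.2) (s p.1))) (z, a) := by
          refine continuousAt_fst.prodMk ?_
          have h3 : ContinuousAt (fun p : Z × ℝ => cl p.2) (z, a) :=
            cl_cont.continuousAt.comp continuousAt_snd
          have h4 : ContinuousAt (fun p : Z × ℝ => s p.1) (z, a) :=
            ContinuousAt.comp (f := Prod.fst) (g := s) (x := (z, a)) (sa z hz) continuousAt_fst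
          exact Filter.Tendsto.min h3 h4
        exact ContinuousAt.comp (f := fun p : Z × ℝ => (p.1, min (cl p.2) (s p.1)))
          (g := fun p : Z × ℝ => GW p.1 p.2) (x := (z, a)) (GWa z hzW _) h2
      refine h1.congr ?_
      have : ∀ᶠ p : Z × ℝ in 𝓝 (z, a), p.1 ∈ U ∩ V :=
        continuousAt_fst.eventually (hW.mem_nhds hzW)
      filter_upwards [this] with p hp
      simp only [hY]
      rw [if_pos hp]
    · -- near z, s = 0
      have hs0 : ∀ᶠ y in 𝓝 z, s y = 0 := by
        rcases hz with hzU | hzV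
        · have hzV : z ∉ V := fun h => hzW ⟨hzU, h⟩
          have h1 : f z = 0 := hf0 z hzU hzV
          have h2 : ∀ᶠ y in 𝓝 z, f y < 1 / 3 := by
            have h4 : f z < 1 / 3 := by rw [h1]; norm_num
            exact (fa z (Or.inl hzU)).eventually (gt_mem_nhds h4)
          filter_upwards [h2] with y hy
          have h3 : lam y = 0 := cl_of_nonpos (by linarith)
          simp only [hs]
          rw [h3]
          norm_num
        · have hzU : z ∉ U := fun h => hzW ⟨h, hzV⟩
          have h1 : f z = 1 := hf1 z hzV hzU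
          have h2 : ∀ᶠ y in 𝓝 z, 2 / 3 < f y := by
            have h4 : 2 / 3 < f z := by rw [h1]; norm_num
            exact (fa z (Or.inr hzV)).eventually (lt_mem_nhds h4)
          filter_upwards [h2] with y hy
          have h3 : lam y = 1 := cl_of_one_le (by linarith)
          simp only [hs]
          rw [h3]
          norm_num
      have h1 : ContinuousAt (fun p : Z × ℝ => p.1) (z, a) := continuousAt_fst
      refine h1.congr ?_
      have : ∀ᶠ p : Z × ℝ in 𝓝 (z, a), s p.1 = 0 :=
        Filter.Tendsto.eventually (p := fun y => s y = 0) continuousAt_fst hs0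
      filter_upwards [this] with p hp
      simp only [hY]
      split_ifs with h
      · rw [hp, min_eq_right (cl_nonneg _), GW0 _ h]
      · rfl
  have YU : ∀ z ∈ U, ∀ a, Y z a ∈ U := by
    intro z hz a
    simp only [hY]
    split_ifs with h
    · exact (GWm z h _).1
    · exact hz
  have YV : ∀ z ∈ V, ∀ a, Y z a ∈ V := by
    intro z hz a
    simp only [hY]
    split_ifs with h
    · exact (GWm z h _).2
    · exact hz
  have lamU : ∀ z ∈ U ∪ V, lam z ≤ 1 / 2 → z ∈ U := by
    intro z hz h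
    by_contra hzU
    have hzV : z ∈ V := hz.resolve_left hzU
    have h1 : lam z = 1 := cl_of_one_le (by rw [hf1 z hzV hzU]; norm_num)
    linarith
  have lamV : ∀ z ∈ U ∪ V, 1 / 2 ≤ lam z → z ∈ V := by
    intro z hz h
    by_contra hzV
    have hzU : z ∈ U := hz.resolve_right hzV
    have h1 : lam z = 0 := cl_of_nonpos (by rw [hf0 z hzU hzV]; norm_num)
    linarith
  -- second phase
  set H : Z → ℝ → Z := fun z r => if lam z ≤ 1 / 2 then GU (Y z (3 * r)) (min (cl (3 * r - 1)) (t z))
    else GV (Y z (3 * r)) (min (cl (3 * r - 1)) (t z)) with hH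
  have Ya' : ∀ z ∈ U ∪ V, ∀ r, ContinuousAt (fun p : Z × ℝ => Y p.1 (3 * p.2)) (z, r) := by
    intro z hz r
    exact ContinuousAt.comp (f := fun p : Z × ℝ => (p.1, 3 * p.2))
      (g := fun p : Z × ℝ => Y p.1 p.2) (x := (z, r)) (Ya z hz (3 * r))
      (continuousAt_fst.prodMk (continuousAt_snd.const_mul 3))
  have ba : ∀ z ∈ U ∪ V, ∀ r, ContinuousAt (fun p : Z × ℝ => min (cl (3 * p.2 - 1)) (t p.1)) (z, r) := by
    intro z hz r
    have h3 : ContinuousAt (fun p : Z × ℝ => cl (3 * p.2 - 1)) (z, r) :=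
      cl_cont.continuousAt.comp ((continuousAt_snd.const_mul 3).sub continuousAt_const)
    have h4 : ContinuousAt (fun p : Z × ℝ => t p.1) (z, r) :=
      ContinuousAt.comp (f := Prod.fst) (g := t) (x := (z, r)) (ta z hz) continuousAt_fst
    exact Filter.Tendsto.min h3 h4
  have HUa : ∀ z ∈ U, ∀ r, ContinuousAt
      (fun p : Z × ℝ => GU (Y p.1 (3 * p.2)) (min (cl (3 * p.2 - 1)) (t p.1))) (z, r) := by
    intro z hz r
    exact ContinuousAt.comp
      (f := fun p : Z × ℝ => (Y p.1 (3 * p.2), min (cl (3 * p.2 - 1)) (t p.1)))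
      (g := fun p : Z × ℝ => GU p.1 p.2) (x := (z, r)) (GUa _ (YU z hz _) _)
      ((Ya' z (Or.inl hz) r).prodMk (ba z (Or.inl hz) r))
  have HVa : ∀ z ∈ V, ∀ r, ContinuousAt
      (fun p : Z × ℝ => GV (Y p.1 (3 * p.2)) (min (cl (3 * p.2 - 1)) (t p.1))) (z, r) := by
    intro z hz r
    exact ContinuousAt.comp
      (f := fun p : Z × ℝ => (Y p.1 (3 * p.2), min (cl (3 * p.2 - 1)) (t p.1)))
      (g := fun p : Z × ℝ => GV p.1 p.2) (x := (z, r)) (GVa _ (YV z hz _) _)
      ((Ya' z (Or.inr hz) r).prodMk (ba z (Or.inr hz) r))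
  -- a general lemma for the case distinction by lam
  have key : ∀ (A B : Z × ℝ → Z), (∀ z ∈ U, ∀ r, ContinuousAt A (z, r)) →
      (∀ z ∈ V, ∀ r, ContinuousAt B (z, r)) →
      (∀ z ∈ U ∪ V, ∀ r, lam z = 1 / 2 → A (z, r) = B (z, r)) →
      ∀ z ∈ U ∪ V, ∀ r, ContinuousAt
        (fun p : Z × ℝ => if lam p.1 ≤ 1 / 2 then A p else B p) (z, r) := by
    intro A B hA hB hAB z hz r
    rcases lt_trichotomy (lam z) (1 / 2) with h | h | h
    · refine (hA z (lamU z hz h.le) r).congr ?_
      have h1 : ∀ᶠ y in 𝓝 z, lam y < 1 / 2 := (lama z hz).eventually (gt_mem_nhds h)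
      have h2 : ∀ᶠ p : Z × ℝ in 𝓝 (z, r), lam p.1 < 1 / 2 :=
        Filter.Tendsto.eventually (p := fun y => lam y < 1 / 2) continuousAt_fst h1
      filter_upwards [h2] with p hp
      rw [if_pos hp.le]
    · exact continuousAt_ite_of_eq (hA z (lamU z hz h.le) r) (hB z (lamV z hz h.ge) r)
        (hAB z hz r h)
    · refine (hB z (lamV z hz h.le) r).congr ?_
      have h1 : ∀ᶠ y in 𝓝 z, 1 / 2 < lam y := (lama z hz).eventually (lt_mem_nhds h)
      have h2 : ∀ᶠ p : Z × ℝ in 𝓝 (z, r), 1 / 2 < lam p.1 :=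
        Filter.Tendsto.eventually (p := fun y => 1 / 2 < lam y) continuousAt_fst h1
      filter_upwards [h2] with p hp
      rw [if_neg (not_le.2 hp)]
  have t12 : ∀ z, lam z = 1 / 2 → t z = 0 := by
    intro z h
    simp only [ht]
    rw [h]
    norm_num
  have Ha : ∀ z ∈ U ∪ V, ∀ r, ContinuousAt (fun p : Z × ℝ => H p.1 p.2) (z, r) := by
    refine key (fun p => GU (Y p.1 (3 * p.2)) (min (cl (3 * p.2 - 1)) (t p.1)))
      (fun p => GV (Y p.1 (3 * p.2)) (min (cl (3 * p.2 - 1)) (t p.1))) HUa HVa ?_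
    intro z hz r h
    show GU (Y z (3 * r)) (min (cl (3 * r - 1)) (t z)) = GV (Y z (3 * r)) (min (cl (3 * r - 1)) (t z))
    rw [t12 z h, min_eq_right (cl_nonneg _), GU0 _ (YU z (lamU z hz h.le) _),
      GV0 _ (YV z (lamV z hz h.ge) _)]
  -- third phase
  set K : Z → ℝ → Z := fun z r => if lam z ≤ 1 / 2 then GU w (t z * (1 - cl (3 * r - 2)))
    else GV w (t z * (1 - cl (3 * r - 2))) with hK
  have ca : ∀ z ∈ U ∪ V, ∀ r, ContinuousAt
      (fun p : Z × ℝ => t p.1 * (1 - cl (3 * p.2 - 2))) (z, r) := by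
    intro z hz r
    refine ContinuousAt.mul ?_ ?_
    · exact ContinuousAt.comp (f := Prod.fst) (g := t) (x := (z, r)) (ta z hz) continuousAt_fst
    · exact continuousAt_const.sub (cl_cont.continuousAt.comp
        ((continuousAt_snd.const_mul 3).sub continuousAt_const))
  have Ka : ∀ z ∈ U ∪ V, ∀ r, ContinuousAt (fun p : Z × ℝ => K p.1 p.2) (z, r) := by
    refine key (fun p => GU w (t p.1 * (1 - cl (3 * p.2 - 2))))
      (fun p => GV w (t p.1 * (1 - cl (3 * p.2 - 2)))) ?_ ?_ ?_
    · intro z hz r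
      exact ContinuousAt.comp (f := fun p : Z × ℝ => (w, t p.1 * (1 - cl (3 * p.2 - 2))))
        (g := fun p : Z × ℝ => GU p.1 p.2) (x := (z, r)) (GUa _ hwU _)
        (continuousAt_const.prodMk (ca z (Or.inl hz) r))
    · intro z hz r
      exact ContinuousAt.comp (f := fun p : Z × ℝ => (w, t p.1 * (1 - cl (3 * p.2 - 2))))
        (g := fun p : Z × ℝ => GV p.1 p.2) (x := (z, r)) (GVa _ hwV _)
        (continuousAt_const.prodMk (ca z (Or.inr hz) r))
    · intro z hz r h
      show GU w (t z * (1 - cl (3 * r - 2))) = GV w (t z * (1 - cl (3 * r - 2)))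
      rw [t12 z h, zero_mul, GU0 _ hwU, GV0 _ hwV]
  -- agreement at r = 2/3
  have hagree : ∀ z ∈ U ∪ V, H z (2 / 3) = K z (2 / 3) := by
    intro z hz
    have e1 : cl (3 * (2 / 3 : ℝ) - 1) = 1 := cl_of_one_le (by norm_num)
    have e2 : cl (3 * (2 / 3 : ℝ) - 2) = 0 := cl_of_nonpos (by norm_num)
    have e3 : cl (3 * (2 / 3 : ℝ)) = 1 := cl_of_one_le (by norm_num)
    have t1 : min 1 (t z) = t z := min_eq_right (min_le_left _ _)
    -- either t z = 1 or s z = 1
    have hts : t z = 1 ∨ s z = 1 := by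
      have h0 := cl_nonneg (3 * f z - 1)
      have h1 := cl_le_one (3 * f z - 1)
      rcases le_or_gt (1 / 4) (lam z) with h | h
      · rcases le_or_gt (lam z) (3 / 4) with h' | h'
        · right
          simp only [hs]
          rw [min_eq_left]
          exact le_min (by linarith) (by linarith)
        · left
          simp only [ht]
          rw [min_eq_left]
          rw [abs_of_nonneg (by linarith)]
          linarith
      · left
        simp only [ht]
        rw [min_eq_left]
        rw [abs_of_nonpos (by linarith)]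
        linarith
    have hYs : s z = 1 → Y z (3 * (2 / 3)) = w := by
      intro h
      have hzW : z ∈ U ∩ V := by
        have h5 : lam z ≠ 0 := by
          intro h6
          simp only [hs] at h
          rw [h6] at h
          norm_num at h
        have h6 : lam z ≠ 1 := by
          intro h6
          simp only [hs] at h
          rw [h6] at h
          norm_num at h
        constructor
        · by_contra hzU
          exact h6 (cl_of_one_le (by rw [hf1 z (hz.resolve_left hzU) hzU]; norm_num))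
        · by_contra hzV
          exact h5 (cl_of_nonpos (by rw [hf0 z (hz.resolve_right hzV) hzV]; norm_num))
      simp only [hY]
      rw [if_pos hzW, e3, h, min_self, GW1 _ hzW]
    simp only [hH, hK]
    rw [e1, e2, t1, sub_zero, mul_one]
    split_ifs with h
    · rcases hts with h2 | h2
      · rw [h2, GU1 _ (YU z (lamU z hz h) _), GU1 _ hwU]
      · rw [hYs h2]
    · have hzV : z ∈ V := lamV z hz (le_of_lt (not_le.1 h))
      rcases hts with h2 | h2
      · rw [h2, GV1 _ (YV z hzV _), GV1 _ hwV]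
      · rw [hYs h2]
  -- the homotopy
  refine ⟨Or.inl hwU, fun z r => if r ≤ 2 / 3 then H z r else K z r, ?_, ?_, ?_, ?_⟩
  · intro p hp
    obtain ⟨z, r⟩ := p
    have hz : z ∈ U ∪ V := hp.1
    apply ContinuousAt.continuousWithinAt
    rcases lt_trichotomy r (2 / 3) with h | h | h
    · refine (Ha z hz r).congr ?_
      have h2 : ∀ᶠ p : Z × ℝ in 𝓝 (z, r), p.2 < 2 / 3 := continuousAt_snd.eventually (gt_mem_nhds h)
      filter_upwards [h2] with p hp
      rw [if_pos hp.le]
    · refine continuousAt_ite_of_eq (p := fun p : Z × ℝ => p.2 ≤ 2 / 3) (Ha z hz r) (Ka z hz r) ?_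
      show H z r = K z r
      rw [h]
      exact hagree z hz
    · refine (Ka z hz r).congr ?_
      have h2 : ∀ᶠ p : Z × ℝ in 𝓝 (z, r), 2 / 3 < p.2 := continuousAt_snd.eventually (lt_mem_nhds h)
      filter_upwards [h2] with p hp
      rw [if_neg (not_le.2 hp)]
  · intro z hz r
    show (if r ≤ 2 / 3 then H z r else K z r) ∈ U ∪ V
    split_ifs with h
    · simp only [hH]
      split_ifs with h2
      · exact Or.inl (GUm _ (YU z (lamU z hz h2) _) _)
      · exact Or.inr (GVm _ (YV z (lamV z hz (le_of_lt (not_le.1 h2))) _) _)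
    · simp only [hK]
      split_ifs with h2
      · exact Or.inl (GUm _ hwU _)
      · exact Or.inr (GVm _ hwV _)
  · intro z hz
    show (if (0 : ℝ) ≤ 2 / 3 then H z 0 else K z 0) = z
    rw [if_pos (by norm_num)]
    have e1 : cl (3 * (0 : ℝ) - 1) = 0 := cl_of_nonpos (by norm_num)
    have e3 : cl (3 * (0 : ℝ)) = 0 := cl_of_nonpos (by norm_num)
    have hY0 : Y z (3 * 0) = z := by
      simp only [hY]
      split_ifs with h
      · rw [e3, min_eq_left (s0 z), GW0 _ h]
      · rfl
    simp only [hH]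
    rw [e1, min_eq_left (t0 z), hY0]
    split_ifs with h
    · exact GU0 _ (lamU z hz h)
    · exact GV0 _ (lamV z hz (le_of_lt (not_le.1 h)))
  · intro z hz
    show (if (1 : ℝ) ≤ 2 / 3 then H z 1 else K z 1) = w
    rw [if_neg (by norm_num)]
    have e2 : cl (3 * (1 : ℝ) - 2) = 1 := cl_of_one_le (by norm_num)
    simp only [hK]
    rw [e2, sub_self, mul_zero, GU0 _ hwU, GV0 _ hwV]
    split_ifs <;> rfl

end Pool.KT
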